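import Mathlib

set_option autoImplicit false

namespace Pool.Agent.Lib.MP_aa3337_co

variable {V : Type*}

/-- Orientation determinant of three points with coordinates `u`, `v`. -/
def det (u v : V → ℝ) (a b c : V) : ℝ :=
  (u b - u a) * (v c - v a) - (v b - v a) * (u c - u a)

/-- The open segments `ij` and `ab` meet. -/
def Cross (u v : V → ℝ) (i j a b : V) : Prop :=
  ∃ s t s' t' : ℝ, 0 < s ∧ 0 < t ∧ s + t = 1 ∧ 0 < s' ∧ 0 < t' ∧ s' + t' = 1 ∧
    s * u i + t * u j = s' * u a + t' * u b ∧ s * v i + t * v j = s' * v a + t' * v b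

/-- No edge of `E` crosses an edge of `E'`. -/
def NoX (u v : V → ℝ) (E E' : V → V → Prop) : Prop :=
  ∀ i j a b, E i j → E' a b → i ≠ j → i ≠ a → i ≠ b → j ≠ a → j ≠ b → a ≠ b →
    ¬ Cross u v i j a b

/-- The edges of `E` are covered by `k` plane edge sets. -/
def Cov (u v : V → ℝ) (E : V → V → Prop) (k : ℕ) : Prop :=
  ∃ F : ℕ → V → V → Prop, (∀ t, NoX u v (F t) (F t)) ∧
    ∀ i j, i ≠ j → E i j → ∃ t, t < k ∧ (F t i j ∨ F t j i)

/-- The two sets are separated by a vertical line. -/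
def Sep (u : V → ℝ) (X Y : Finset V) : Prop :=
  (∀ x ∈ X, ∀ y ∈ Y, u x < u y) ∨ (∀ x ∈ X, ∀ y ∈ Y, u y < u x)

variable {u v : V → ℝ}

theorem Cross.symm_left {i j a b : V} (h : Cross u v i j a b) : Cross u v j i a b := by
  obtain ⟨s, t, s', t', h1, h2, h3, h4, h5, h6, h7, h8⟩ := h
  exact ⟨t, s, s', t', h2, h1, by linarith, h4, h5, h6, by linarith, by linarith⟩

theorem Cross.swap {i j a b : V} (h : Cross u v i j a b) : Cross u v a b i j := by
  obtain ⟨s, t, s', t', h1, h2, h3, h4, h5, h6, h7, h8⟩ := h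
  exact ⟨s', t', s, t, h4, h5, h6, h1, h2, h3, h7.symm, h8.symm⟩

theorem Cross.symm_right {i j a b : V} (h : Cross u v i j a b) : Cross u v i j b a :=
  h.swap.symm_left.swap

theorem NoX.symm {E E' : V → V → Prop} (h : NoX u v E E') : NoX u v E' E := by
  intro i j a b h1 h2 hij hia hib hja hjb hab hc
  exact h a b i j h2 h1 hab hia.symm hja.symm hib.symm hjb.symm hij hc.swap

theorem NoX.sym_left {E E' : V → V → Prop} (h : NoX u v E E') :
    NoX u v (fun i j => E i j ∨ E j i) E' := by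
  intro i j a b h1 h2 hij hia hib hja hjb hab hc
  rcases h1 with h1 | h1
  · exact h i j a b h1 h2 hij hia hib hja hjb hab hc
  · exact h j i a b h1 h2 hij.symm hja hjb hia hib hab hc.symm_left

theorem NoX.sym_both {E E' : V → V → Prop} (h : NoX u v E E') :
    NoX u v (fun i j => E i j ∨ E j i) (fun i j => E' i j ∨ E' j i) :=
  h.sym_left.symm.sym_left.symm

theorem NoX.or_left {E E' G : V → V → Prop} (h : NoX u v E G) (h' : NoX u v E' G) :
    NoX u v (fun i j => E i j ∨ E' i j) G := by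
  intro i j a b h1 h2
  rcases h1 with h1 | h1
  · exact h i j a b h1 h2
  · exact h' i j a b h1 h2

theorem Cov.mono {E E' : V → V → Prop} {k k' : ℕ} (h : Cov u v E k) (hk : k ≤ k')
    (hE : ∀ i j, i ≠ j → E' i j → E i j ∨ E j i) : Cov u v E' k' := by
  obtain ⟨F, hF, hc⟩ := h
  refine ⟨F, hF, fun i j hij h' => ?_⟩
  rcases hE i j hij h' with h1 | h1
  · obtain ⟨t, ht, h2⟩ := hc i j hij h1
    exact ⟨t, lt_of_lt_of_le ht hk, h2⟩
  · obtain ⟨t, ht, h2⟩ := hc j i hij.symm h1
    exact ⟨t, lt_of_lt_of_le ht hk, h2.symm⟩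

theorem Cov.union {E E' : V → V → Prop} {k k' : ℕ} (h : Cov u v E k) (h' : Cov u v E' k') :
    Cov u v (fun i j => E i j ∨ E' i j) (k + k') := by
  obtain ⟨F, hF, hc⟩ := h
  obtain ⟨F', hF', hc'⟩ := h'
  refine ⟨fun t => if t < k then F t else F' (t - k), fun t => ?_, fun i j hij hh => ?_⟩
  · by_cases ht : t < k
    · simpa [ht] using hF t
    · simpa [ht] using hF' (t - k)
  · rcases hh with h1 | h1
    · obtain ⟨t, ht, h2⟩ := hc i j hij h1
      exact ⟨t, by omega, by simpa [ht] using h2⟩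
    · obtain ⟨t, ht, h2⟩ := hc' i j hij h1
      refine ⟨k + t, by omega, ?_⟩
      have : ¬ (k + t < k) := by omega
      simpa [this] using h2

theorem Cov.single {E : V → V → Prop} (h : NoX u v E E) : Cov u v E 1 :=
  ⟨fun _ => E, fun _ => h, fun _ _ _ h1 => ⟨0, by omega, Or.inl h1⟩⟩

theorem Cov.empty : Cov u v (fun _ _ => False) 0 :=
  ⟨fun _ _ _ => False, fun _ _ _ _ _ h => h.elim, fun _ _ _ h => h.elim⟩

theorem Cov.par {E E' : V → V → Prop} {k : ℕ} (h : Cov u v E k) (h' : Cov u v E' k)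
    (hx : NoX u v E E') : Cov u v (fun i j => E i j ∨ E' i j) k := by
  obtain ⟨F, hF, hc⟩ := h
  obtain ⟨F', hF', hc'⟩ := h'
  have hs := hx.sym_both
  refine ⟨fun t i j => (F t i j ∧ (E i j ∨ E j i)) ∨ (F' t i j ∧ (E' i j ∨ E' j i)),
    fun t => ?_, fun i j hij hh => ?_⟩
  · intro i j a b h1 h2
    rcases h1 with h1 | h1 <;> rcases h2 with h2 | h2
    · exact hF t i j a b h1.1 h2.1
    · exact hs i j a b h1.2 h2.2
    · exact hs.symm i j a b h1.2 h2.2
    · exact hF' t i j a b h1.1 h2.1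
  · rcases hh with h1 | h1
    · obtain ⟨t, ht, h2⟩ := hc i j hij h1
      refine ⟨t, ht, ?_⟩
      rcases h2 with h2 | h2
      · exact Or.inl (Or.inl ⟨h2, Or.inl h1⟩)
      · exact Or.inr (Or.inl ⟨h2, Or.inr h1⟩)
    · obtain ⟨t, ht, h2⟩ := hc' i j hij h1
      refine ⟨t, ht, ?_⟩
      rcases h2 with h2 | h2
      · exact Or.inl (Or.inr ⟨h2, Or.inl h1⟩)
      · exact Or.inr (Or.inr ⟨h2, Or.inr h1⟩)

theorem Cov.star (A : Finset V) : Cov u v (fun i _ => i ∈ A) A.card := by
  classical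
  induction A using Finset.induction_on with
  | empty => exact Cov.empty.mono (by simp) (by simp)
  | insert a A ha ih =>
    have h1 : Cov u v (fun i _ => i = a) 1 := by
      refine Cov.single ?_
      intro i j b c h1 h2 _ hib
      exact absurd (h1.trans h2.symm) hib
    refine (ih.union h1).mono (by rw [Finset.card_insert_of_notMem ha]) ?_
    intro i j _ hi
    rcases Finset.mem_insert.1 hi with h | h
    · exact Or.inl (Or.inr h)
    · exact Or.inl (Or.inl h)

theorem Cov.star' (A : Finset V) (P : V → Prop) {m : ℕ} (hm : A.card = m) :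
    Cov u v (fun i j => i ∈ A ∧ P j) m :=
  (Cov.star A).mono hm.le (fun _ _ _ h => Or.inl h.1)

theorem not_cross_of_det {p q i j a b : V} (hi : 0 ≤ det u v p q i) (hj : 0 ≤ det u v p q j)
    (hij : 0 < det u v p q i ∨ 0 < det u v p q j) (ha : det u v p q a ≤ 0)
    (hb : det u v p q b ≤ 0) : ¬ Cross u v i j a b := by
  rintro ⟨s, t, s', t', h1, h2, h3, h4, h5, h6, h7, h8⟩
  have key : s * det u v p q i + t * det u v p q j
      = s' * det u v p q a + t' * det u v p q b := by
    unfold det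
    have e1 : t = 1 - s := by linarith
    have e2 : t' = 1 - s' := by linarith
    subst e1 e2
    linear_combination (u q - u p) * h8 - (v q - v p) * h7
  have h9 : s' * det u v p q a + t' * det u v p q b ≤ 0 := by
    have := mul_nonneg h4.le (neg_nonneg.2 ha)
    have := mul_nonneg h5.le (neg_nonneg.2 hb)
    linarith
  have h10 := mul_nonneg h1.le hi
  have h11 := mul_nonneg h2.le hj
  rcases hij with h | h
  · have := mul_pos h1 h
    linarith
  · have := mul_pos h2 h
    linarith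

theorem det_self_left (p q : V) : det u v p q p = 0 := by unfold det; ring
theorem det_self_right (p q : V) : det u v p q q = 0 := by unfold det; ring
theorem det_cyc (a b c : V) : det u v a b c = det u v b c a := by unfold det; ring
theorem det_swap12 (a b c : V) : det u v a b c = - det u v b a c := by unfold det; ring
theorem det_swap23 (a b c : V) : det u v a b c = - det u v a c b := by unfold det; ring

theorem not_cross_pos {i j a b : V} (hi : 0 < det u v a b i) (hj : 0 < det u v a b j) :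
    ¬ Cross u v i j a b :=
  not_cross_of_det hi.le hj.le (Or.inl hi) (det_self_left a b).le (det_self_right a b).le

theorem not_cross_pos' {i j a b : V} (ha : 0 < det u v i j a) (hb : 0 < det u v i j b) :
    ¬ Cross u v i j a b := fun h => not_cross_pos ha hb h.swap

theorem Sep.symm {X Y : Finset V} (h : Sep u X Y) : Sep u Y X := by
  rcases h with h | h
  · exact Or.inr fun y hy x hx => h x hx y hy
  · exact Or.inl fun y hy x hx => h x hx y hy

theorem Sep.mono {X Y X' Y' : Finset V} (h : Sep u X Y) (hX : X' ⊆ X) (hY : Y' ⊆ Y) :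
    Sep u X' Y' := by
  rcases h with h | h
  · exact Or.inl fun x hx y hy => h x (hX hx) y (hY hy)
  · exact Or.inr fun x hx y hy => h x (hX hx) y (hY hy)

theorem Sep.ne {X Y : Finset V} (h : Sep u X Y) {x y : V} (hx : x ∈ X) (hy : y ∈ Y) : x ≠ y := by
  rintro rfl
  rcases h with h | h <;> exact lt_irrefl _ (h x hx x hy)

theorem not_cross_of_lt {i j a b : V} (h1 : u i < u a) (h2 : u i < u b) (h3 : u j < u a)
    (h4 : u j < u b) : ¬ Cross u v i j a b := by
  rintro ⟨s, t, s', t', g1, g2, g3, g4, g5, g6, g7, -⟩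
  have k1 := mul_pos (mul_pos g1 g4) (sub_pos.2 h1)
  have k2 := mul_pos (mul_pos g1 g5) (sub_pos.2 h2)
  have k3 := mul_pos (mul_pos g2 g4) (sub_pos.2 h3)
  have k4 := mul_pos (mul_pos g2 g5) (sub_pos.2 h4)
  have e1 : t = 1 - s := by linarith
  have e2 : t' = 1 - s' := by linarith
  subst e1 e2
  nlinarith

theorem Sep.not_cross {X Y : Finset V} (h : Sep u X Y) {i j a b : V} (hi : i ∈ X) (hj : j ∈ X)
    (ha : a ∈ Y) (hb : b ∈ Y) : ¬ Cross u v i j a b := by
  rcases h with h | h
  · exact not_cross_of_lt (h i hi a ha) (h i hi b hb) (h j hj a ha) (h j hj b hb)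
  · exact fun hc => not_cross_of_lt (h i hi a ha) (h j hj a ha) (h i hi b hb) (h j hj b hb) hc.swap

theorem Sep.noX {X Y : Finset V} (h : Sep u X Y) :
    NoX u v (fun i j => i ∈ X ∧ j ∈ X) (fun i j => i ∈ Y ∧ j ∈ Y) :=
  fun _ _ _ _ h1 h2 _ _ _ _ _ _ => h.not_cross h1.1 h1.2 h2.1 h2.2

/-- Inner common tangent, left-to-right case: the pair of least slope. -/
theorem tangent_lt {X Y : Finset V} (h : ∀ x ∈ X, ∀ y ∈ Y, u x < u y) (hX : X.Nonempty)
    (hY : Y.Nonempty) : ∃ x ∈ X, ∃ y ∈ Y, (∀ x' ∈ X, det u v x y x' ≤ 0) ∧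
      (∀ y' ∈ Y, 0 ≤ det u v x y y') := by
  obtain ⟨⟨x, y⟩, hxy, hmin⟩ := Finset.exists_min_image (X ×ˢ Y)
    (fun p : V × V => (v p.2 - v p.1) / (u p.2 - u p.1)) (hX.product hY)
  rw [Finset.mem_product] at hxy
  obtain ⟨hx, hy⟩ := hxy
  refine ⟨x, hx, y, hy, fun x' hx' => ?_, fun y' hy' => ?_⟩
  · have h1 := hmin (x', y) (Finset.mem_product.2 ⟨hx', hy⟩)
    simp only at h1
    rw [div_le_div_iff₀ (sub_pos.2 (h x hx y hy)) (sub_pos.2 (h x' hx' y hy))] at h1
    unfold det
    nlinarith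
  · have h1 := hmin (x, y') (Finset.mem_product.2 ⟨hx, hy'⟩)
    simp only at h1
    rw [div_le_div_iff₀ (sub_pos.2 (h x hx y hy)) (sub_pos.2 (h x hx y' hy'))] at h1
    unfold det
    nlinarith

theorem Sep.tangent {X Y : Finset V} (h : Sep u X Y) (hX : X.Nonempty)
    (hY : Y.Nonempty) : ∃ x ∈ X, ∃ y ∈ Y, (∀ x' ∈ X, det u v x y x' ≤ 0) ∧
      (∀ y' ∈ Y, 0 ≤ det u v x y y') := by
  rcases h with h | h
  · exact tangent_lt h hX hY
  · obtain ⟨y, hy, x, hx, h1, h2⟩ :=
      tangent_lt (v := v) (fun y hy x hx => h x hx y hy) hY hX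
    refine ⟨x, hx, y, hy, fun x' hx' => ?_, fun y' hy' => ?_⟩
    · have := h2 x' hx'
      rw [det_swap12]
      linarith
    · have := h1 y' hy'
      rw [det_swap12]
      linarith

/-- Peeling inner common tangents: `m` plane double stars. -/
theorem peel (hgp : ∀ a b c : V, a ≠ b → b ≠ c → a ≠ c → det u v a b c ≠ 0)
    (L R : V → Prop) (m : ℕ) : ∀ X Y : Finset V, X.card = m → Y.card = m → Sep u X Y →
      (∀ x ∈ X, ∀ y ∈ Y, ∀ l, L l → 0 ≤ det u v x y l) →
      (∀ x ∈ X, ∀ y ∈ Y, ∀ r, R r → det u v x y r ≤ 0) →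
      Cov u v (fun i j => (i ∈ X ∧ (j ∈ Y ∨ L j)) ∨ (i ∈ Y ∧ R j)) m := by
  classical
  induction m with
  | zero =>
    intro X Y hX hY _ _ _
    rw [Finset.card_eq_zero] at hX hY
    subst hX hY
    exact Cov.empty.mono le_rfl (by simp)
  | succ m ih =>
    intro X Y hX hY hs hL hR
    obtain ⟨x, hx, y, hy, h1, h2⟩ := hs.tangent (v := v) (Finset.card_pos.1 (by omega))
      (Finset.card_pos.1 (by omega))
    have hxy : x ≠ y := hs.ne hx hy
    have ih' := ih (X.erase x) (Y.erase y) (by rw [Finset.card_erase_of_mem hx]; omega)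
      (by rw [Finset.card_erase_of_mem hy]; omega)
      (hs.mono (Finset.erase_subset _ _) (Finset.erase_subset _ _))
      (fun a ha b hb => hL a (Finset.mem_of_mem_erase ha) b (Finset.mem_of_mem_erase hb))
      (fun a ha b hb => hR a (Finset.mem_of_mem_erase ha) b (Finset.mem_of_mem_erase hb))
    have key : ∀ j b, 0 ≤ det u v x y j → det u v x y b ≤ 0 → x ≠ j → j ≠ y →
        ¬ Cross u v x j y b := by
      intro j b hj hb hxj hjy
      refine not_cross_of_det (p := x) (q := y) (det_self_left x y).ge hj (Or.inr ?_)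
        (det_self_right x y).le hb
      exact lt_of_le_of_ne hj (hgp x y j hxy hjy.symm hxj).symm
    have h3 : Cov u v (fun i j => (i = x ∧ 0 ≤ det u v x y j) ∨ (i = y ∧ det u v x y j ≤ 0))
        1 := by
      refine Cov.single ?_
      intro i j a b g1 g2 hij hia hib hja hjb hab
      rcases g1 with ⟨rfl, g1⟩ | ⟨rfl, g1⟩ <;> rcases g2 with ⟨rfl, g2⟩ | ⟨rfl, g2⟩
      · exact absurd rfl hia
      · exact key j b g1 g2 hij hja
      · exact fun hc => key b j g2 g1 hab hib.symm hc.swap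
      · exact absurd rfl hia
    refine (ih'.union h3).mono le_rfl ?_
    intro i j hij hh
    rcases hh with ⟨hi, hj⟩ | ⟨hi, hj⟩
    · by_cases hix : i = x
      · subst hix
        refine Or.inl (Or.inr (Or.inl ⟨rfl, ?_⟩))
        rcases hj with hj | hj
        · exact h2 j hj
        · exact hL i hx y hy j hj
      · rcases hj with hj | hj
        · by_cases hjy : j = y
          · subst hjy
            exact Or.inr (Or.inr (Or.inr ⟨rfl, h1 i hi⟩))
          · exact Or.inl (Or.inl (Or.inl ⟨Finset.mem_erase.2 ⟨hix, hi⟩,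
              Or.inl (Finset.mem_erase.2 ⟨hjy, hj⟩)⟩))
        · exact Or.inl (Or.inl (Or.inl ⟨Finset.mem_erase.2 ⟨hix, hi⟩, Or.inr hj⟩))
    · by_cases hiy : i = y
      · subst hiy
        exact Or.inl (Or.inr (Or.inr ⟨rfl, hR x hx i hy j hj⟩))
      · exact Or.inl (Or.inl (Or.inr ⟨Finset.mem_erase.2 ⟨hiy, hi⟩, hj⟩))

/-- Four clusters in convex position need only `3m` colours. -/
theorem four_convex (hgp : ∀ a b c : V, a ≠ b → b ≠ c → a ≠ c → det u v a b c ≠ 0) {m : ℕ}
    {A B C D : Finset V} (hA : A.card = m) (hB : B.card = m) (hC : C.card = m) (hD : D.card = m)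
    (sAB : Sep u A B) (sAC : Sep u A C) (sAD : Sep u A D) (sBC : Sep u B C) (sBD : Sep u B D)
    (sCD : Sep u C D)
    (h1 : ∀ a ∈ A, ∀ b ∈ B, ∀ c ∈ C, 0 < det u v a b c)
    (h2 : ∀ a ∈ A, ∀ b ∈ B, ∀ d ∈ D, 0 < det u v a b d)
    (h3 : ∀ a ∈ A, ∀ c ∈ C, ∀ d ∈ D, 0 < det u v a c d)
    (h4 : ∀ b ∈ B, ∀ c ∈ C, ∀ d ∈ D, 0 < det u v b c d) :
    Cov u v (fun i j => (i ∈ A ∨ i ∈ B ∨ i ∈ C ∨ i ∈ D) ∧ (j ∈ A ∨ j ∈ B ∨ j ∈ C ∨ j ∈ D))
      (3 * m) := by
  have p1 := peel hgp (fun l => l ∈ D) (fun r => r ∈ B) m A C hA hC sAC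
    (fun a ha c hc d hd => (h3 a ha c hc d hd).le)
    (fun a ha c hc b hb => by
      have := h1 a ha b hb c hc
      rw [det_swap23]
      linarith)
  have p2 := peel hgp (fun l => l ∈ A) (fun r => r ∈ C) m B D hB hD sBD
    (fun b hb d hd a ha => by
      have := h2 a ha b hb d hd
      rw [det_cyc] at this
      exact this.le)
    (fun b hb d hd c hc => by
      have := h4 b hb c hc d hd
      rw [det_swap23]
      linarith)
  have q1 := ((Cov.star' (u := u) (v := v) A (fun j => j ∈ A) hA).par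
    (Cov.star' B (fun j => j ∈ B) hB) sAB.noX)
  have q2 := q1.par (Cov.star' C (fun j => j ∈ C) hC) (sAC.noX.or_left sBC.noX)
  have q3 := q2.par (Cov.star' D (fun j => j ∈ D) hD)
    ((sAD.noX.or_left sBD.noX).or_left sCD.noX)
  refine ((p1.union p2).union q3).mono (by omega) ?_
  rintro i j - ⟨hi | hi | hi | hi, hj | hj | hj | hj⟩ <;> simp only [hi, hj] <;> simp

/-- Four clusters, one inside the triangle of the others, need only `3m` colours. -/
theorem four_inner {m : ℕ}
    {A B C D : Finset V} (hA : A.card = m) (hB : B.card = m) (hC : C.card = m) (hD : D.card = m)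
    (sAD : Sep u A D)
    (h1 : ∀ a ∈ A, ∀ b ∈ B, ∀ c ∈ C, 0 < det u v a b c)
    (h2 : ∀ a ∈ A, ∀ b ∈ B, ∀ d ∈ D, 0 < det u v a b d)
    (h3 : ∀ a ∈ A, ∀ c ∈ C, ∀ d ∈ D, det u v a c d < 0)
    (h4 : ∀ b ∈ B, ∀ c ∈ C, ∀ d ∈ D, 0 < det u v b c d) :
    Cov u v (fun i j => (i ∈ A ∨ i ∈ B ∨ i ∈ C ∨ i ∈ D) ∧ (j ∈ A ∨ j ∈ B ∨ j ∈ C ∨ j ∈ D))
      (3 * m) := by
  have t1 := (Cov.star' (u := u) (v := v) A (fun j => j ∈ A ∨ j ∈ B) hA).par
    (Cov.star' D (fun j => j ∈ D ∨ j ∈ C) hD) (by
      rintro i j a b ⟨hi, hj | hj⟩ ⟨ha, hb | hb⟩ - - - - - -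
      · exact sAD.not_cross hi hj ha hb
      · refine not_cross_pos ?_ ?_
        · have := h3 i hi b hb a ha
          unfold det at this ⊢
          linarith
        · have := h3 j hj b hb a ha
          unfold det at this ⊢
          linarith
      · exact not_cross_pos' (h2 i hi j hj a ha) (h2 i hi j hj b hb)
      · exact not_cross_pos' (h2 i hi j hj a ha) (h1 i hi j hj b hb))
  have t2 := (Cov.star' (u := u) (v := v) B (fun j => j ∈ B ∨ j ∈ C) hB).par
    (Cov.star' A (fun j => j ∈ D) hA) (by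
      rintro i j a b ⟨hi, hj | hj⟩ ⟨ha, hb⟩ - - - - - -
      · refine fun hc => not_cross_pos ?_ ?_ hc.symm_right
        · have := h2 a ha i hi b hb
          unfold det at this ⊢
          linarith
        · have := h2 a ha j hj b hb
          unfold det at this ⊢
          linarith
      · refine not_cross_pos' ?_ (h4 i hi j hj b hb)
        have := h1 a ha i hi j hj
        unfold det at this ⊢
        linarith)
  have t3 := (Cov.star' (u := u) (v := v) C (fun j => j ∈ C ∨ j ∈ A) hC).par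
    (Cov.star' B (fun j => j ∈ D) hB) (by
      rintro i j a b ⟨hi, hj | hj⟩ ⟨ha, hb⟩ - - - - - -
      · refine fun hc => not_cross_pos ?_ ?_ hc.symm_right
        · have := h4 a ha i hi b hb
          unfold det at this ⊢
          linarith
        · have := h4 a ha j hj b hb
          unfold det at this ⊢
          linarith
      · refine not_cross_pos' ?_ ?_
        · have := h1 j hj a ha i hi
          unfold det at this ⊢
          linarith
        · have := h3 j hj i hi b hb
          unfold det at this ⊢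
          linarith)
  refine ((t1.union t2).union t3).mono (by omega) ?_
  rintro i j - ⟨hi | hi | hi | hi, hj | hj | hj | hj⟩ <;> simp only [hi, hj] <;> simp

end Pool.Agent.Lib.MP_aa3337_co
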