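import Mathlib

set_option autoImplicit false

namespace Pool.Agent.Lib.MP_aa3337_co.LB

open Finset

open Classical in
/-- colours of `I` seen in columns below `x` and rows from `v` on -/
noncomputable def seen (f : ℕ → ℕ → ℕ) (s : ℕ) (I : Finset ℕ) (x v : ℕ) : Finset ℕ :=
  I.filter (fun g => ∃ z, z < x ∧ ∃ w, v ≤ w ∧ w < s ∧ f z w = g)

theorem seen_mono (f : ℕ → ℕ → ℕ) (s : ℕ) (I : Finset ℕ) {x x' v v' : ℕ} (hx : x ≤ x')
    (hv : v' ≤ v) : seen f s I x v ⊆ seen f s I x' v' := by
  intro g hg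
  simp only [seen, mem_filter] at hg ⊢
  obtain ⟨h1, z, hz, w, hw, hws, hf⟩ := hg
  exact ⟨h1, z, by omega, w, by omega, hws, hf⟩

theorem seen_card_le (f : ℕ → ℕ → ℕ) (s : ℕ) (I : Finset ℕ) (x v : ℕ) :
    (seen f s I x v).card ≤ I.card := by
  apply card_le_card
  intro g hg
  simp only [seen, mem_filter] at hg
  exact hg.1

theorem ex_level (f : ℕ → ℕ → ℕ) (s : ℕ) (I : Finset ℕ) (r v : ℕ) :
    ∃ x, r + 1 + (seen f s I (x + 1) v).card ≤ x + 1 :=
  ⟨r + I.card, by have := seen_card_le f s I (r + I.card + 1) v; omega⟩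

/-- the first column where the level `r + 1` is reached -/
noncomputable def lev (f : ℕ → ℕ → ℕ) (s : ℕ) (I : Finset ℕ) (r v : ℕ) : ℕ :=
  Nat.find (ex_level f s I r v)

theorem lev_spec (f : ℕ → ℕ → ℕ) (s : ℕ) (I : Finset ℕ) (r v : ℕ) :
    r + 1 + (seen f s I (lev f s I r v + 1) v).card ≤ lev f s I r v + 1 :=
  Nat.find_spec (ex_level f s I r v)

theorem lev_le (f : ℕ → ℕ → ℕ) (s : ℕ) (I : Finset ℕ) (r v x : ℕ)
    (h : r + 1 + (seen f s I (x + 1) v).card ≤ x + 1) : lev f s I r v ≤ x :=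
  Nat.find_min' (ex_level f s I r v) h

theorem lev_bound (f : ℕ → ℕ → ℕ) (s : ℕ) (I : Finset ℕ) (r v : ℕ) :
    lev f s I r v ≤ r + I.card :=
  lev_le f s I r v _ (by have := seen_card_le f s I (r + I.card + 1) v; omega)

theorem lev_succ (f : ℕ → ℕ → ℕ) (s : ℕ) (I : Finset ℕ) (r v : ℕ) :
    lev f s I r v < lev f s I (r + 1) v := by
  have h := lev_spec f s I (r + 1) v
  obtain ⟨y, hy⟩ : ∃ y, lev f s I (r + 1) v = y + 1 := ⟨lev f s I (r + 1) v - 1, by omega⟩
  rw [hy] at h ⊢
  have h2 := card_le_card (seen_mono f s I (Nat.le_succ (y + 1)) (le_refl v))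
  have := lev_le f s I r v y (by simp only [Nat.succ_eq_add_one] at h2; omega)
  omega

theorem lev_strict (f : ℕ → ℕ → ℕ) (s : ℕ) (I : Finset ℕ) (v : ℕ) :
    StrictMono (fun r => lev f s I r v) :=
  strictMono_nat_of_lt_succ (fun r => lev_succ f s I r v)

theorem lev_anti (f : ℕ → ℕ → ℕ) (s : ℕ) (I : Finset ℕ) (r : ℕ) {v v' : ℕ} (h : v ≤ v') :
    lev f s I r v' ≤ lev f s I r v := by
  have h1 := lev_spec f s I r v
  have h2 := card_le_card (seen_mono f s I (le_refl (lev f s I r v + 1)) h)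
  exact lev_le f s I r v' _ (by omega)

theorem lev_run (f : ℕ → ℕ → ℕ) (s : ℕ) (I : Finset ℕ) (r v : ℕ) (hv : v < s)
    (hI : f (lev f s I r v) v ∈ I) :
    ∃ z, z < lev f s I r v ∧ ∃ w, v ≤ w ∧ w < s ∧ f z w = f (lev f s I r v) v := by
  have h1 := lev_spec f s I r v
  have hsub := seen_mono f s I (Nat.le_succ (lev f s I r v)) (le_refl v)
  have h2 : lev f s I r v < r + 1 + (seen f s I (lev f s I r v) v).card := by
    by_contra hc
    obtain ⟨y, hy⟩ : ∃ y, lev f s I r v = y + 1 := ⟨lev f s I r v - 1, by omega⟩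
    have := lev_le f s I r v y (by rw [← hy]; omega)
    omega
  have heq : seen f s I (lev f s I r v) v = seen f s I (lev f s I r v + 1) v :=
    eq_of_subset_of_card_le hsub (by omega)
  have hmem : f (lev f s I r v) v ∈ seen f s I (lev f s I r v + 1) v := by
    simp only [seen, mem_filter]
    exact ⟨hI, lev f s I r v, by omega, v, le_refl v, hv, rfl⟩
  rw [← heq] at hmem
  simp only [seen, mem_filter] at hmem
  exact hmem.2

open Classical in
/-- cells of the colour `g` that have a cell of the same colour to the left, not lower -/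
noncomputable def run (f : ℕ → ℕ → ℕ) (M s g : ℕ) : Finset (ℕ × ℕ) :=
  (range M ×ˢ range s).filter
    (fun q => f q.1 q.2 = g ∧ ∃ z, z < q.1 ∧ ∃ w, q.2 ≤ w ∧ w < s ∧ f z w = g)

theorem run_card_le (f : ℕ → ℕ → ℕ) (M s g lo hi : ℕ)
    (hch : ∀ x x' v v', x < x' → x' < M → v' < v → v < s → f x v ≠ f x' v')
    (hb : ∀ x v, x < M → v < s → f x v = g → lo ≤ x ∧ x ≤ hi) :
    (run f M s g).card ≤ hi - lo := by
  have : (run f M s g).card ≤ (Ioc lo hi).card := by
    apply card_le_card_of_injOn (fun q => q.1)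
    · intro q hq
      simp only [run, coe_filter, mem_product, mem_range, Set.mem_ofPred_eq] at hq
      obtain ⟨⟨h1, h2⟩, h3, z, hz, w, hw, hws, hf⟩ := hq
      have a1 := hb q.1 q.2 h1 h2 h3
      have a2 := hb z w (by omega) hws hf
      simp only [coe_Ioc, Set.mem_Ioc]
      omega
    · intro q hq q' hq' hqq
      simp only [run, coe_filter, mem_product, mem_range, Set.mem_ofPred_eq] at hq hq'
      obtain ⟨⟨h1, h2⟩, h3, z, hz, w, hw, hws, hf⟩ := hq
      obtain ⟨⟨h1', h2'⟩, h3', z', hz', w', hw', hws', hf'⟩ := hq'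
      have e1 : q.1 = q'.1 := hqq
      have e2 : q.2 = q'.2 := by
        by_contra hne
        rcases Nat.lt_or_gt_of_ne hne with hlt | hlt
        · exact hch z' q.1 w' q.2 (by omega) h1 (by omega) hws' (by rw [hf', h3])
        · exact hch z q'.1 w q'.2 (by omega) h1' (by omega) hws (by rw [hf, h3'])
      exact Prod.ext e1 e2
  simpa using this

theorem grid_bound (f : ℕ → ℕ → ℕ) (M s D : ℕ) (I H : Finset ℕ)
    (hch : ∀ x x' v v', x < x' → x' < M → v' < v → v < s → f x v ≠ f x' v')
    (hH : ∀ x v, x < M → v < s → f x v ∈ I ∨ f x v ∈ H)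
    (hD : D + I.card + s ≤ M + 1) :
    D * s ≤ D * H.card + ∑ g ∈ I, (run f M s g).card := by
  classical
  set col : ℕ → ℕ → ℕ := fun r v => lev f s I (r + (s - 1 - v)) v with hcol
  have hlt : ∀ r v, r < D → v < s → col r v < M := by
    intro r v hr hv
    have := lev_bound f s I (r + (s - 1 - v)) v
    simp only [hcol]
    omega
  have hanti : ∀ r v v', v' < v → v < s → col r v < col r v' := by
    intro r v v' h1 h2
    have a1 : lev f s I (r + (s - 1 - v)) v < lev f s I (r + (s - 1 - v')) v :=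
      lev_strict f s I v (by omega)
    have a2 := lev_anti f s I (r + (s - 1 - v')) (le_of_lt h1)
    simp only [hcol]
    omega
  have hrow : ∀ r ∈ range D,
      s ≤ H.card + ((range s).filter (fun v => f (col r v) v ∈ I)).card := by
    intro r hr
    have hr' := mem_range.1 hr
    have h1 : ((range s).filter (fun v => ¬ f (col r v) v ∈ I)).card ≤ H.card := by
      apply card_le_card_of_injOn (fun v => f (col r v) v)
      · intro v hv
        simp only [coe_filter, mem_range, Set.mem_ofPred_eq] at hv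
        exact (hH _ _ (hlt r v hr' hv.1) hv.1).resolve_left hv.2
      · intro v hv v' hv' hvv
        simp only [coe_filter, mem_range, Set.mem_ofPred_eq] at hv hv'
        by_contra hne
        rcases Nat.lt_or_gt_of_ne hne with h | h
        · exact hch _ _ v' v (hanti r v' v h hv'.1) (hlt r v hr' hv.1) h hv'.1 hvv.symm
        · exact hch _ _ v v' (hanti r v v' h hv.1) (hlt r v' hr' hv'.1) h hv.1 hvv
    have h2 := card_filter_add_card_filter_not (s := range s) (fun v => f (col r v) v ∈ I)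
    rw [card_range] at h2
    omega
  have hsum := sum_le_sum hrow
  rw [sum_add_distrib, sum_const, sum_const, card_range, smul_eq_mul, smul_eq_mul] at hsum
  have hinj : ∑ r ∈ range D, ((range s).filter (fun v => f (col r v) v ∈ I)).card
      ≤ ∑ g ∈ I, (run f M s g).card := by
    rw [← card_sigma, ← card_sigma]
    apply card_le_card_of_injOn
      (fun q : (Σ _ : ℕ, ℕ) => (⟨f (col q.1 q.2) q.2, (col q.1 q.2, q.2)⟩ : Σ _ : ℕ, ℕ × ℕ))
    · intro q hq
      simp only [coe_sigma, Set.mem_sigma_iff, coe_range, Set.mem_Iio, coe_filter, mem_range,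
        Set.mem_ofPred_eq] at hq
      obtain ⟨h1, h2, h3⟩ := hq
      simp only [coe_sigma, Set.mem_sigma_iff, mem_coe, run, mem_filter, mem_product, mem_range]
      exact ⟨h3, ⟨hlt _ _ h1 h2, h2⟩, trivial, lev_run f s I _ _ h2 h3⟩
    · intro q hq q' hq' hqq
      simp only [coe_sigma, Set.mem_sigma_iff, coe_range, Set.mem_Iio, coe_filter, mem_range,
        Set.mem_ofPred_eq] at hq hq'
      have e0 : (col q.1 q.2, q.2) = (col q'.1 q'.2, q'.2) := by
        have := congrArg (fun t : (Σ _ : ℕ, ℕ × ℕ) => t.2) hqq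
        exact this
      have e2 : q.2 = q'.2 := (Prod.ext_iff.1 e0).2
      have e1 : col q.1 q.2 = col q'.1 q'.2 := (Prod.ext_iff.1 e0).1
      rw [← e2] at e1
      have e3 : q.1 + (s - 1 - q.2) = q'.1 + (s - 1 - q.2) :=
        (lev_strict f s I q.2).injective e1
      obtain ⟨a, b⟩ := q
      obtain ⟨a', b'⟩ := q'
      simp only at e2 e3
      have : a = a' := by omega
      subst this e2
      rfl
  omega

end Pool.Agent.Lib.MP_aa3337_co.LB
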