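import Mathlib
import Pool.Agent.Lib.MP_aa3337_co.LBGrid

set_option autoImplicit false

namespace Pool.Agent.Lib.MP_aa3337_co.LB

open Finset

/-- the crossing facts used by the count -/
structure Hyp (m s K : ℕ) (B R : Fin 7 → ℕ → ℕ → ℕ) : Prop where
  bK : ∀ i x y, x ≤ y → y < m → B i x y < K
  rK : ∀ c z v, z < m → v < s → R c z v < K
  bb0 : ∀ i x y x' y', x ≤ y → x' ≤ y' → y' < m → x < x' → y < y' → B i x y ≠ B i x' y'
  bb1 : ∀ i x y x' y', x ≤ y → y < m → x' ≤ y' → y' < m → B i x y ≠ B (i + 1) x' y'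
  bb2 : ∀ i x y x' y', x ≤ y → y < m → x' ≤ y' → y' < m → B i x y ≠ B (i + 2) x' y'
  bb3 : ∀ i x y x' y', x ≤ y → y < m → x' ≤ y' → y' < m → x' < y → B i x y ≠ B (i + 3) x' y'
  rb0 : ∀ i x y z v, x ≤ y → y < m → z < m → v < s → x < z → R i z v ≠ B i x y
  rb1 : ∀ i x y z v, x ≤ y → y < m → z < m → v < s → R (i + 1) z v ≠ B i x y
  rb2 : ∀ i x y z v, x ≤ y → y < m → z < m → v < s → R (i + 2) z v ≠ B i x y
  rb3 : ∀ i x y z v, x ≤ y → y < m → z < m → v < s → z < y → R (i + 3) z v ≠ B i x y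
  rr : ∀ c x x' v v', x < x' → x' < m → v' < v → v < s → R c x v ≠ R c x' v'

/-- index pairs of the long chords of one grid -/
def tri (m : ℕ) : Finset (ℕ × ℕ) := (range m ×ˢ range m).filter (fun q => q.1 ≤ q.2)

theorem mem_tri {m : ℕ} {q : ℕ × ℕ} : q ∈ tri m ↔ q.1 ≤ q.2 ∧ q.2 < m := by
  simp only [tri, mem_filter, mem_product, mem_range]
  omega

theorem two_card_tri (m : ℕ) : 2 * (tri m).card = m * (m + 1) := by
  have h1 : (tri m).card = ∑ y ∈ range m, (y + 1) := by
    rw [tri, card_filter, sum_product_right]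
    apply sum_congr rfl
    intro y hy
    rw [← card_filter]
    have : (range m).filter (fun x => x ≤ y) = range (y + 1) := by
      ext x
      have := mem_range.1 hy
      simp only [mem_filter, mem_range]
      omega
    simp only [this, card_range]
  rw [h1]
  clear h1
  induction m with
  | zero => simp
  | succ k ih => rw [sum_range_succ, mul_add, ih]; ring

/-- the long chords of grid `i` with colour `g` -/
def cls (m : ℕ) (B : Fin 7 → ℕ → ℕ → ℕ) (g : ℕ) (i : Fin 7) : Finset (ℕ × ℕ) :=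
  (tri m).filter (fun q => B i q.1 q.2 = g)

theorem mem_cls {m : ℕ} {B : Fin 7 → ℕ → ℕ → ℕ} {g : ℕ} {i : Fin 7} {q : ℕ × ℕ} :
    q ∈ cls m B g i ↔ (q.1 ≤ q.2 ∧ q.2 < m) ∧ B i q.1 q.2 = g := by
  simp only [cls, mem_filter, mem_tri]

section

variable {m s K : ℕ} {B R : Fin 7 → ℕ → ℕ → ℕ}

theorem card_cls_le (h : Hyp m s K B R) (g : ℕ) (i : Fin 7) (X Y : ℕ)
    (hb : ∀ q ∈ cls m B g i, X ≤ q.1 ∧ q.2 ≤ Y) : (cls m B g i).card ≤ Y + 1 - X := by
  have : (cls m B g i).card ≤ (range (Y + 1 - X)).card := by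
    apply card_le_card_of_injOn (fun q => q.2 - q.1)
    · intro q hq
      have a1 := hb q hq
      have a2 := mem_cls.1 hq
      simp only [coe_range, Set.mem_Iio]
      omega
    · intro q hq q' hq' hqq
      have a2 := mem_cls.1 hq
      have a3 := mem_cls.1 hq'
      have e : q.2 - q.1 = q'.2 - q'.1 := hqq
      have e1 : q.1 = q'.1 := by
        by_contra hne
        rcases Nat.lt_or_gt_of_ne hne with hlt | hlt
        · exact h.bb0 i q.1 q.2 q'.1 q'.2 a2.1.1 a3.1.1 a3.1.2 hlt (by omega)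
            (by rw [a2.2, a3.2])
        · exact h.bb0 i q'.1 q'.2 q.1 q.2 a3.1.1 a2.1.1 a2.1.2 hlt (by omega)
            (by rw [a2.2, a3.2])
      exact Prod.ext e1 (by omega)
  simpa using this

theorem not_used1 (h : Hyp m s K B R) {g : ℕ} {i : Fin 7} (hi : (cls m B g i).Nonempty) :
    ¬ (cls m B g (i + 1)).Nonempty := by
  rintro ⟨q', hq'⟩
  obtain ⟨q, hq⟩ := hi
  have a := mem_cls.1 hq
  have b := mem_cls.1 hq'
  exact h.bb1 i q.1 q.2 q'.1 q'.2 a.1.1 a.1.2 b.1.1 b.1.2 (by rw [a.2, b.2])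

theorem not_used2 (h : Hyp m s K B R) {g : ℕ} {i : Fin 7} (hi : (cls m B g i).Nonempty) :
    ¬ (cls m B g (i + 2)).Nonempty := by
  rintro ⟨q', hq'⟩
  obtain ⟨q, hq⟩ := hi
  have a := mem_cls.1 hq
  have b := mem_cls.1 hq'
  exact h.bb2 i q.1 q.2 q'.1 q'.2 a.1.1 a.1.2 b.1.1 b.1.2 (by rw [a.2, b.2])

theorem f31 : ∀ i : Fin 7, i + 3 + 1 = i + 4 := by decide
theorem f32 : ∀ i : Fin 7, i + 3 + 2 = i + 5 := by decide
theorem f33 : ∀ i : Fin 7, i + 3 + 3 = i + 6 := by decide
theorem f43 : ∀ i : Fin 7, i + 4 + 3 = i := by decide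
theorem f34 : ∀ i : Fin 7, i + 3 + 4 = i := by decide
theorem f52 : ∀ i : Fin 7, i + 5 + 2 = i := by decide
theorem f61 : ∀ i : Fin 7, i + 6 + 1 = i := by decide
theorem f11 : ∀ i : Fin 7, i + 1 + 1 = i + 2 := by decide
theorem f12 : ∀ i : Fin 7, i + 1 + 2 = i + 3 := by decide
theorem f21 : ∀ i : Fin 7, i + 2 + 1 = i + 3 := by decide
theorem fcases : ∀ i c : Fin 7, c = i ∨ c = i + 1 ∨ c = i + 2 ∨ c = i + 3 ∨ c = i + 4 ∨
    c = i + 5 ∨ c = i + 6 := by decide

theorem sum_shift (F : Fin 7 → ℕ) (i : Fin 7) :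
    ∑ c, F c = F i + F (i + 1) + F (i + 2) + F (i + 3) + F (i + 4) + F (i + 5) + F (i + 6) := by
  rw [← Equiv.sum_comp (Equiv.addLeft i) F, Fin.sum_univ_seven]
  simp

theorem card_zero_of {g : ℕ} {i : Fin 7} (hi : ¬ (cls m B g i).Nonempty) :
    (cls m B g i).card = 0 := by
  rw [not_nonempty_iff_eq_empty] at hi
  rw [hi, card_empty]

/-- the colouring of the middle columns of cluster `c` -/
def mid (R : Fin 7 → ℕ → ℕ → ℕ) (t : ℕ) (c : Fin 7) : ℕ → ℕ → ℕ := fun x v => R c (t + x) v

theorem mid_chain (h : Hyp m s K B R) (t : ℕ) (c : Fin 7) :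
    ∀ x x' v v', x < x' → x' < m - 2 * t → v' < v → v < s → mid R t c x v ≠ mid R t c x' v' := by
  intro x x' v v' h1 h2 h3 h4
  exact h.rr c _ _ v v' (by omega) (by omega) h3 h4

/-- colour `g` has a radial edge in the middle of cluster `c` -/
def touch (m s t : ℕ) (R : Fin 7 → ℕ → ℕ → ℕ) (g : ℕ) (c : Fin 7) : Prop :=
  ∃ x v, x < m - 2 * t ∧ v < s ∧ mid R t c x v = g

theorem two_bound (h : Hyp m s K B R) (t g : ℕ) (i : Fin 7) (h0 : (cls m B g i).Nonempty)
    (h3 : (cls m B g (i + 3)).Nonempty) :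
    (∑ j, (cls m B g j).card + ∑ c, (run (mid R t c) (m - 2 * t) s g).card ≤ m + 1) ∧
    (∀ c, touch m s t R g c → c ≠ i + 3 → ∑ j, (cls m B g j).card + t ≤ m + 1) := by
  obtain ⟨p1, hp1, hX⟩ := exists_min_image (cls m B g i) (fun q => q.1) h0
  obtain ⟨p2, hp2, hY⟩ := exists_max_image (cls m B g i) (fun q => q.2) h0
  obtain ⟨p3, hp3, hX'⟩ := exists_min_image (cls m B g (i + 3)) (fun q => q.1) h3
  obtain ⟨p4, hp4, hY'⟩ := exists_max_image (cls m B g (i + 3)) (fun q => q.2) h3
  have a1 := mem_cls.1 hp1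
  have a2 := mem_cls.1 hp2
  have a3 := mem_cls.1 hp3
  have a4 := mem_cls.1 hp4
  have b0 := card_cls_le h g i p1.1 p2.2 (fun q hq => ⟨hX q hq, hY q hq⟩)
  have b3 := card_cls_le h g (i + 3) p3.1 p4.2 (fun q hq => ⟨hX' q hq, hY' q hq⟩)
  have o1 : p1.2 ≤ p2.2 := hY p1 hp1
  have o3 : p3.2 ≤ p4.2 := hY' p3 hp3
  have o2 : p2.2 ≤ p3.1 := by
    by_contra hc
    exact h.bb3 i p2.1 p2.2 p3.1 p3.2 a2.1.1 a2.1.2 a3.1.1 a3.1.2 (by omega)
      (by rw [a2.2, a3.2])
  have z1 := card_zero_of (not_used1 h h0)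
  have z2 := card_zero_of (not_used2 h h0)
  have z4 := card_zero_of (not_used1 h h3)
  have z5 := card_zero_of (not_used2 h h3)
  rw [f31] at z4
  rw [f32] at z5
  have z6 : (cls m B g (i + 6)).card = 0 := card_zero_of (fun hc => by
    have := not_used1 h hc
    rw [f61] at this
    exact this h0)
  have c0 : ∀ x v, x < m - 2 * t → v < s → mid R t i x v = g → t + x ≤ p1.1 := by
    intro x v hx hv he
    by_contra hc
    exact h.rb0 i p1.1 p1.2 (t + x) v a1.1.1 a1.1.2 (by omega) hv (by omega)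
      (by rw [a1.2]; exact he)
  have c1 : ∀ x v, x < m - 2 * t → v < s → mid R t (i + 1) x v ≠ g := by
    intro x v hx hv he
    exact h.rb1 i p1.1 p1.2 (t + x) v a1.1.1 a1.1.2 (by omega) hv (by rw [a1.2]; exact he)
  have c2 : ∀ x v, x < m - 2 * t → v < s → mid R t (i + 2) x v ≠ g := by
    intro x v hx hv he
    exact h.rb2 i p1.1 p1.2 (t + x) v a1.1.1 a1.1.2 (by omega) hv (by rw [a1.2]; exact he)
  have c3 : ∀ x v, x < m - 2 * t → v < s → mid R t (i + 3) x v = g →
      p2.2 ≤ t + x ∧ t + x ≤ p3.1 := by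
    intro x v hx hv he
    constructor
    · by_contra hc
      exact h.rb3 i p2.1 p2.2 (t + x) v a2.1.1 a2.1.2 (by omega) hv (by omega)
        (by rw [a2.2]; exact he)
    · by_contra hc
      exact h.rb0 (i + 3) p3.1 p3.2 (t + x) v a3.1.1 a3.1.2 (by omega) hv (by omega)
        (by rw [a3.2]; exact he)
  have c4 : ∀ x v, x < m - 2 * t → v < s → mid R t (i + 4) x v ≠ g := by
    intro x v hx hv he
    rw [← f31] at he
    exact h.rb1 (i + 3) p3.1 p3.2 (t + x) v a3.1.1 a3.1.2 (by omega) hv (by rw [a3.2]; exact he)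
  have c5 : ∀ x v, x < m - 2 * t → v < s → mid R t (i + 5) x v ≠ g := by
    intro x v hx hv he
    rw [← f32] at he
    exact h.rb2 (i + 3) p3.1 p3.2 (t + x) v a3.1.1 a3.1.2 (by omega) hv (by rw [a3.2]; exact he)
  have c6 : ∀ x v, x < m - 2 * t → v < s → mid R t (i + 6) x v = g → p4.2 ≤ t + x := by
    intro x v hx hv he
    rw [← f33] at he
    by_contra hc
    exact h.rb3 (i + 3) p4.1 p4.2 (t + x) v a4.1.1 a4.1.2 (by omega) hv (by omega)
      (by rw [a4.2]; exact he)
  have r0 := run_card_le (mid R t i) (m - 2 * t) s g 0 (p1.1 - t) (mid_chain h t i)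
    (fun x v hx hv he => by have := c0 x v hx hv he; omega)
  have r1 := run_card_le (mid R t (i + 1)) (m - 2 * t) s g 0 0 (mid_chain h t _)
    (fun x v hx hv he => absurd he (c1 x v hx hv))
  have r2 := run_card_le (mid R t (i + 2)) (m - 2 * t) s g 0 0 (mid_chain h t _)
    (fun x v hx hv he => absurd he (c2 x v hx hv))
  have r3 := run_card_le (mid R t (i + 3)) (m - 2 * t) s g (p2.2 - t) (p3.1 - t)
    (mid_chain h t _) (fun x v hx hv he => by have := c3 x v hx hv he; omega)
  have r4 := run_card_le (mid R t (i + 4)) (m - 2 * t) s g 0 0 (mid_chain h t _)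
    (fun x v hx hv he => absurd he (c4 x v hx hv))
  have r5 := run_card_le (mid R t (i + 5)) (m - 2 * t) s g 0 0 (mid_chain h t _)
    (fun x v hx hv he => absurd he (c5 x v hx hv))
  have r6 := run_card_le (mid R t (i + 6)) (m - 2 * t) s g (p4.2 - t) (m - 2 * t - 1)
    (mid_chain h t _) (fun x v hx hv he => by have := c6 x v hx hv he; omega)
  rw [sum_shift (fun j => (cls m B g j).card) i,
    sum_shift (fun c => (run (mid R t c) (m - 2 * t) s g).card) i]
  constructor
  · omega
  · rintro c ⟨x, v, hx, hv, he⟩ hne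
    rcases fcases i c with rfl | rfl | rfl | rfl | rfl | rfl | rfl
    · have := c0 x v hx hv he; omega
    · exact absurd he (c1 x v hx hv)
    · exact absurd he (c2 x v hx hv)
    · exact absurd rfl hne
    · exact absurd he (c4 x v hx hv)
    · exact absurd he (c5 x v hx hv)
    · have := c6 x v hx hv he; omega

/-- colour `g` uses two grids of long chords -/
def two (m : ℕ) (B : Fin 7 → ℕ → ℕ → ℕ) (g : ℕ) : Prop :=
  ∃ i, (cls m B g i).Nonempty ∧ (cls m B g (i + 3)).Nonempty

theorem one_bound (h : Hyp m s K B R) (g : ℕ) (hg : ¬ two m B g) :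
    ∑ j, (cls m B g j).card ≤ m + 1 := by
  by_cases hu : ∃ i, (cls m B g i).Nonempty
  · obtain ⟨i, h0⟩ := hu
    have b0 := card_cls_le h g i 0 m (fun q hq => by have := mem_cls.1 hq; omega)
    have z1 := card_zero_of (not_used1 h h0)
    have z2 := card_zero_of (not_used2 h h0)
    have z3 : (cls m B g (i + 3)).card = 0 := card_zero_of (fun hc => hg ⟨i, h0, hc⟩)
    have z4 : (cls m B g (i + 4)).card = 0 :=
      card_zero_of (fun hc => hg ⟨i + 4, hc, by rw [f43]; exact h0⟩)
    have z5 : (cls m B g (i + 5)).card = 0 := card_zero_of (fun hc => by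
      have := not_used2 h hc
      rw [f52] at this
      exact this h0)
    have z6 : (cls m B g (i + 6)).card = 0 := card_zero_of (fun hc => by
      have := not_used1 h hc
      rw [f61] at this
      exact this h0)
    rw [sum_shift (fun j => (cls m B g j).card) i]
    omega
  · have : ∀ j, (cls m B g j).card = 0 := fun j => card_zero_of (fun hc => hu ⟨j, hc⟩)
    simp [this]

open Classical in
theorem touch_bound (h : Hyp m s K B R) (t g : ℕ) :
    ∑ c, (if ¬ two m B g ∧ touch m s t R g c then 1 else 0) +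
      5 * ∑ j, (if (cls m B g j).Nonempty then 1 else 0) ≤ 10 := by
  have le1 : ∀ (p : Prop) (d : Decidable p), (@ite ℕ p d 1 0) ≤ 1 := by
    intro p d
    split_ifs <;> omega
  by_cases hu : ∃ i, (cls m B g i).Nonempty
  · by_cases hg : two m B g
    · obtain ⟨i, h0, h3⟩ := id hg
      have z1 := not_used1 h h0
      have z2 := not_used2 h h0
      have z4 := not_used1 h h3
      have z5 := not_used2 h h3
      rw [f31] at z4
      rw [f32] at z5
      have z6 : ¬ (cls m B g (i + 6)).Nonempty := fun hc => by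
        have := not_used1 h hc
        rw [f61] at this
        exact this h0
      rw [sum_shift (fun j => if (cls m B g j).Nonempty then 1 else 0) i]
      simp [hg, h0, h3, z1, z2, z4, z5, z6]
    · obtain ⟨i, h0⟩ := hu
      have z1 := not_used1 h h0
      have z2 := not_used2 h h0
      have z3 : ¬ (cls m B g (i + 3)).Nonempty := fun hc => hg ⟨i, h0, hc⟩
      have z4 : ¬ (cls m B g (i + 4)).Nonempty := fun hc => hg ⟨i + 4, hc, by rw [f43]; exact h0⟩
      have z5 : ¬ (cls m B g (i + 5)).Nonempty := fun hc => by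
        have := not_used2 h hc
        rw [f52] at this
        exact this h0
      have z6 : ¬ (cls m B g (i + 6)).Nonempty := fun hc => by
        have := not_used1 h hc
        rw [f61] at this
        exact this h0
      obtain ⟨p, hp⟩ := id h0
      have a := mem_cls.1 hp
      have t1 : ¬ touch m s t R g (i + 1) := by
        rintro ⟨x, v, hx, hv, he⟩
        exact h.rb1 i p.1 p.2 (t + x) v a.1.1 a.1.2 (by omega) hv (by rw [a.2]; exact he)
      have t2 : ¬ touch m s t R g (i + 2) := by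
        rintro ⟨x, v, hx, hv, he⟩
        exact h.rb2 i p.1 p.2 (t + x) v a.1.1 a.1.2 (by omega) hv (by rw [a.2]; exact he)
      rw [sum_shift (fun j => if (cls m B g j).Nonempty then 1 else 0) i,
        sum_shift (fun c => if ¬ two m B g ∧ touch m s t R g c then 1 else 0) i]
      have e0 := le1 (¬ two m B g ∧ touch m s t R g i) inferInstance
      have e3 := le1 (¬ two m B g ∧ touch m s t R g (i + 3)) inferInstance
      have e4 := le1 (¬ two m B g ∧ touch m s t R g (i + 4)) inferInstance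
      have e5 := le1 (¬ two m B g ∧ touch m s t R g (i + 5)) inferInstance
      have e6 := le1 (¬ two m B g ∧ touch m s t R g (i + 6)) inferInstance
      have t1' : ¬ (¬ two m B g ∧ touch m s t R g (i + 1)) := fun hc => t1 hc.2
      have t2' : ¬ (¬ two m B g ∧ touch m s t R g (i + 2)) := fun hc => t2 hc.2
      rw [if_pos h0, if_neg z1, if_neg z2, if_neg z3, if_neg z4, if_neg z5, if_neg z6,
        if_neg t1', if_neg t2']
      omega
  · have z : ∀ j, ¬ (cls m B g j).Nonempty := fun j hc => hu ⟨j, hc⟩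
    have e : ∑ c : Fin 7, (if ¬ two m B g ∧ touch m s t R g c then 1 else 0) ≤ ∑ _c : Fin 7, 1 :=
      sum_le_sum (fun c _ => le1 _ _)
    simp only [z, if_false, sum_const_zero]
    simp only [sum_const, card_univ, Fintype.card_fin, smul_eq_mul] at e
    omega

theorem used_count (h : Hyp m s K B R) (j : Fin 7) :
    m ≤ ∑ g ∈ range K, (if (cls m B g j).Nonempty then 1 else 0) := by
  rw [← card_filter]
  have : (range m).card ≤ ((range K).filter (fun g => (cls m B g j).Nonempty)).card := by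
    apply card_le_card_of_injOn (fun x => B j x x)
    · intro x hx
      have hx' : x < m := by simpa using hx
      simp only [coe_filter, mem_range, Set.mem_ofPred_eq]
      exact ⟨h.bK j x x le_rfl hx', (x, x), mem_cls.2 ⟨⟨le_rfl, hx'⟩, rfl⟩⟩
    · intro x hx y hy hxy
      have hx' : x < m := by simpa using hx
      have hy' : y < m := by simpa using hy
      by_contra hne
      rcases Nat.lt_or_gt_of_ne hne with hlt | hlt
      · exact h.bb0 j x x y y le_rfl le_rfl hy' hlt hlt hxy
      · exact h.bb0 j y y x x le_rfl le_rfl hx' hlt hlt hxy.symm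
  simpa using this

theorem apex_count (h : Hyp m s K B R) (c : Fin 7) :
    ∑ g ∈ range K, (if (cls m B g (c + 4)).Nonempty ∧ (cls m B g c).Nonempty then 1 else 0)
      + 3 * m ≤ K := by
  have u1 := used_count h (c + 1)
  have u2 := used_count h (c + 2)
  have u3 := used_count h (c + 3)
  have key : ∀ g ∈ range K,
      (if (cls m B g (c + 4)).Nonempty ∧ (cls m B g c).Nonempty then 1 else 0) +
      (if (cls m B g (c + 1)).Nonempty then 1 else 0) +
      (if (cls m B g (c + 2)).Nonempty then 1 else 0) +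
      (if (cls m B g (c + 3)).Nonempty then 1 else 0) ≤ 1 := by
    intro g _
    have n01 := @not_used1 m s K B R h g c
    have n02 := @not_used2 m s K B R h g c
    have n34 := @not_used1 m s K B R h g (c + 3)
    have n12 := @not_used1 m s K B R h g (c + 1)
    have n13 := @not_used2 m s K B R h g (c + 1)
    have n23 := @not_used1 m s K B R h g (c + 2)
    rw [f31] at n34
    rw [f11] at n12
    rw [f12] at n13
    rw [f21] at n23
    split_ifs <;> first | omega | (exfalso; tauto)
  have := sum_le_sum key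
  simp only [sum_add_distrib, sum_const, card_range, smul_eq_mul, mul_one] at this
  omega

theorem total_count (h : Hyp m s K B R) :
    ∑ g ∈ range K, ∑ j, (cls m B g j).card = 7 * (tri m).card := by
  rw [sum_comm]
  have : ∀ j : Fin 7, ∑ g ∈ range K, (cls m B g j).card = (tri m).card := by
    intro j
    symm
    apply card_eq_sum_card_fiberwise (f := fun q : ℕ × ℕ => B j q.1 q.2)
    intro q hq
    have := mem_tri.1 hq
    simp only [coe_range, Set.mem_Iio]
    exact h.bK j q.1 q.2 this.1 this.2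
  simp [this]

end

end Pool.Agent.Lib.MP_aa3337_co.LB
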