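import Mathlib
import Pool.Agent.Lib.MP_aa3337_co.LBComb

set_option autoImplicit false

namespace Pool.Agent.Lib.MP_aa3337_co.LB

open Finset

variable {m s K : ℕ} {B R : Fin 7 → ℕ → ℕ → ℕ}

open Classical in
theorem side_count (h : Hyp m s K B R) (t : ℕ) (c : Fin 7) :
    t * ((range K).filter (fun g => two m B g ∧ touch m s t R g c)).card + 7 * (tri m).card
      + t * (3 * m) ≤ t * K + K * (m + 1) := by
  have key : ∀ g ∈ range K,
      t * (if two m B g ∧ touch m s t R g c then 1 else 0) + ∑ j, (cls m B g j).card ≤
      t * (if (cls m B g (c + 4)).Nonempty ∧ (cls m B g c).Nonempty then 1 else 0) + (m + 1) := by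
    intro g _
    by_cases hg : two m B g
    · obtain ⟨i, h0, h3⟩ := id hg
      have tb := two_bound h t g i h0 h3
      by_cases ht : touch m s t R g c
      · by_cases hc : c = i + 3
        · subst hc
          rw [if_pos ⟨hg, ht⟩, if_pos ⟨by rw [f34]; exact h0, h3⟩]
          omega
        · have := tb.2 c ht hc
          rw [if_pos ⟨hg, ht⟩]
          omega
      · rw [if_neg (fun hc => ht hc.2)]
        omega
    · have := one_bound h g hg
      rw [if_neg (fun hc => hg hc.1)]
      omega
  have h1 := sum_le_sum key
  rw [sum_add_distrib, sum_add_distrib, ← mul_sum, ← mul_sum, ← card_filter, total_count h,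
    sum_const, card_range, smul_eq_mul] at h1
  have h2 := Nat.mul_le_mul_left t (apex_count h c)
  rw [mul_add] at h2
  omega

open Classical in
theorem run_count (h : Hyp m s K B R) (t : ℕ) :
    ∑ c, ∑ g ∈ (range K).filter (fun g => two m B g ∧ touch m s t R g c),
      (run (mid R t c) (m - 2 * t) s g).card + 7 * (tri m).card ≤ K * (m + 1) := by
  have key : ∀ g ∈ range K,
      ∑ c, (if two m B g ∧ touch m s t R g c then (run (mid R t c) (m - 2 * t) s g).card else 0)
        + ∑ j, (cls m B g j).card ≤ m + 1 := by
    intro g _
    by_cases hg : two m B g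
    · obtain ⟨i, h0, h3⟩ := id hg
      have tb := (two_bound h t g i h0 h3).1
      have : ∑ c, (if two m B g ∧ touch m s t R g c then
          (run (mid R t c) (m - 2 * t) s g).card else 0) ≤
          ∑ c, (run (mid R t c) (m - 2 * t) s g).card :=
        sum_le_sum (fun c _ => by split_ifs <;> omega)
      omega
    · have := one_bound h g hg
      simp only [hg, false_and, if_false, sum_const_zero]
      omega
  have h1 := sum_le_sum key
  rw [sum_add_distrib, total_count h, sum_const, card_range, smul_eq_mul, sum_comm] at h1
  simp only [sum_filter]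
  exact h1

open Classical in
theorem other_count (h : Hyp m s K B R) (t : ℕ) :
    ∑ c, ((range K).filter (fun g => ¬ two m B g ∧ touch m s t R g c)).card + 35 * m
      ≤ 10 * K := by
  have h1 := sum_le_sum (fun g (_ : g ∈ range K) => touch_bound h t g)
  rw [sum_add_distrib, ← mul_sum, sum_const, card_range, smul_eq_mul, sum_comm,
    sum_comm (s := range K)] at h1
  have h2 : ∑ _j : Fin 7, m ≤
      ∑ j : Fin 7, ∑ g ∈ range K, (if (cls m B g j).Nonempty then 1 else 0) :=
    sum_le_sum (fun j _ => used_count h j)
  simp only [sum_const, card_univ, Fintype.card_fin, smul_eq_mul] at h2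
  simp only [card_filter]
  omega

theorem count_main (h : Hyp (200 * s) s K B R) (hs : 1 ≤ s) : 700536 * s < 1000 * K := by
  classical
  by_contra hK
  have hK' : 1000 * K ≤ 700536 * s := by omega
  have ht := two_card_tri (200 * s)
  have hI : ∀ c, ((range K).filter
      (fun g => two (200 * s) B g ∧ touch (200 * s) s (10 * s) R g c)).card ≤ 112 * s + 1 := by
    intro c
    have h1 := side_count h (10 * s) c
    by_contra hc
    have h2 : 112 * s + 2 ≤ ((range K).filter
      (fun g => two (200 * s) B g ∧ touch (200 * s) s (10 * s) R g c)).card := by omega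
    have h3 := Nat.mul_le_mul_left (10 * s) h2
    have h4 := Nat.mul_le_mul_left (210 * s + 1) hK'
    nlinarith
  have hg : ∀ c ∈ (univ : Finset (Fin 7)), (67 * s) * s ≤
      (67 * s) * ((range K).filter
        (fun g => ¬ two (200 * s) B g ∧ touch (200 * s) s (10 * s) R g c)).card +
      ∑ g ∈ (range K).filter (fun g => two (200 * s) B g ∧ touch (200 * s) s (10 * s) R g c),
        (run (mid R (10 * s) c) (200 * s - 2 * (10 * s)) s g).card := by
    intro c _
    apply grid_bound _ _ _ _ _ _ (mid_chain h (10 * s) c)
    · intro x v hx hv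
      have hlt : mid R (10 * s) c x v < K := h.rK c _ v (by omega) hv
      have htc : touch (200 * s) s (10 * s) R (mid R (10 * s) c x v) c := ⟨x, v, hx, hv, rfl⟩
      simp only [mem_filter, mem_range]
      by_cases h2 : two (200 * s) B (mid R (10 * s) c x v)
      · exact Or.inl ⟨hlt, h2, htc⟩
      · exact Or.inr ⟨hlt, h2, htc⟩
    · have := hI c
      omega
  have h1 := sum_le_sum hg
  rw [sum_add_distrib, ← mul_sum, ← mul_sum, sum_const, card_univ, Fintype.card_fin,
    smul_eq_mul] at h1
  have h2 := run_count h (10 * s)
  have h3 := Nat.mul_le_mul_left (67 * s) (other_count h (10 * s))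
  rw [mul_add] at h3
  have h4 := Nat.mul_le_mul_left (870 * s + 1) hK'
  have h5 : s ≤ s * s := Nat.le_mul_self s
  nlinarith

end Pool.Agent.Lib.MP_aa3337_co.LB
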