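import Mathlib

set_option autoImplicit false

namespace Pool.Agent.Lib.MP_aa3337_co.LB

/-- twice the signed area of a triangle -/
def area (a b c : ℝ × ℝ) : ℝ := (b.1 - a.1) * (c.2 - a.2) - (b.2 - a.2) * (c.1 - a.1)

theorem area_of_collinear {a b c : ℝ × ℝ} (h : Collinear ℝ ({a, b, c} : Set (ℝ × ℝ))) :
    area a b c = 0 := by
  rw [collinear_iff_of_mem (p₀ := a) (by simp)] at h
  obtain ⟨v, hv⟩ := h
  obtain ⟨r, hr⟩ := hv b (by simp)
  obtain ⟨t, ht⟩ := hv c (by simp)
  rw [hr, ht]
  simp only [area, vadd_eq_add, Prod.fst_add, Prod.snd_add, Prod.smul_fst, Prod.smul_snd,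
    smul_eq_mul]
  ring

theorem meet_of_area {a b c d : ℝ × ℝ} (h1 : area a b c * area a b d < 0)
    (h2 : area c d a * area c d b < 0) :
    (openSegment ℝ a b ∩ openSegment ℝ c d).Nonempty := by
  have hne : area c d b - area c d a ≠ 0 := by
    intro h0
    have : area c d b = area c d a := by linarith
    rw [this] at h2
    nlinarith [mul_self_nonneg (area c d a)]
  have hrel : area a b d - area a b c = -(area c d b - area c d a) := by
    simp only [area]
    ring
  have hsq : 0 < (area c d b - area c d a) ^ 2 := by positivity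
  have pos : ∀ x : ℝ, 0 < x * (area c d b - area c d a) → 0 < x / (area c d b - area c d a) := by
    intro x hx
    have : x / (area c d b - area c d a) =
        x * (area c d b - area c d a) / (area c d b - area c d a) ^ 2 := by
      field_simp
    rw [this]
    positivity
  have n1 : area c d b ≠ 0 := fun h0 => by rw [h0] at h2; simp at h2
  have n2 : area c d a ≠ 0 := fun h0 => by rw [h0] at h2; simp at h2
  have n3 : area a b d ≠ 0 := fun h0 => by rw [h0] at h1; simp at h1
  have n4 : area a b c ≠ 0 := fun h0 => by rw [h0] at h1; simp at h1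
  refine ⟨(area c d b / (area c d b - area c d a)) • a +
    (-area c d a / (area c d b - area c d a)) • b, ⟨_, _, ?_, ?_, ?_, rfl⟩,
    ⟨-area a b d / (area c d b - area c d a), area a b c / (area c d b - area c d a),
      ?_, ?_, ?_, ?_⟩⟩
  · apply pos
    nlinarith [mul_self_pos.2 n1]
  · apply pos
    nlinarith [mul_self_pos.2 n2]
  · field_simp
    ring
  · apply pos
    have : area c d b - area c d a = -(area a b d - area a b c) := by linarith
    rw [this]
    nlinarith [mul_self_pos.2 n3]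
  · apply pos
    have : area c d b - area c d a = -(area a b d - area a b c) := by linarith
    rw [this]
    nlinarith [mul_self_pos.2 n4]
  · field_simp
    linarith
  · apply Prod.ext
    · simp only [Prod.fst_add, Prod.smul_fst, smul_eq_mul]
      field_simp
      simp only [area]
      ring
    · simp only [Prod.snd_add, Prod.smul_snd, smul_eq_mul]
      field_simp
      simp only [area]
      ring

/-- abscissae of the seven clusters -/
def pos : ℕ → ℝ
  | 0 => -30
  | 1 => -12
  | 2 => -5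
  | 3 => 0
  | 4 => 5
  | 5 => 12
  | _ => 30

theorem pos_mono : Monotone pos := by
  apply monotone_nat_of_le_succ
  intro n
  rcases n with _ | _ | _ | _ | _ | _ | n <;> simp [pos] <;> norm_num

theorem near_pos {c c' : ℕ} (hc' : c' ≤ 6) (h1 : c ≤ c') (h2 : c' ≤ c + 3) {x y : ℝ}
    (hx1 : pos c - 1 < x) (hx2 : x < pos c + 1) (hy1 : pos c' - 1 < y) (hy2 : y < pos c' + 1) :
    0 < x * y + 100 := by
  have hc : c ≤ 6 := by omega
  interval_cases c <;> interval_cases c' <;> simp only [pos] at * <;> nlinarith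

theorem far_neg {c c' : ℕ} (hc' : c' ≤ 6) (h2 : c + 4 ≤ c') {x y : ℝ}
    (hx1 : pos c - 1 < x) (hx2 : x < pos c + 1) (hy1 : pos c' - 1 < y) (hy2 : y < pos c' + 1) :
    x * y + 100 < 0 := by
  have hc : c ≤ 2 := by omega
  interval_cases c <;> interval_cases c' <;> simp only [pos] at * <;> nlinarith

theorem low_neg {c : ℕ} (h1 : 2 ≤ c) (h2 : c ≤ 4) {x y : ℝ}
    (hx1 : pos c - 1 < x) (hx2 : x < pos c + 1) (hy1 : pos c - 1 < y) (hy2 : y < pos c + 1) :
    x * y - 100 < 0 := by
  interval_cases c <;> simp only [pos] at * <;> nlinarith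

theorem high_pos {c : ℕ} (hc : c ≤ 6) (h1 : c < 2 ∨ 4 < c) {x y : ℝ}
    (hx1 : pos c - 1 < x) (hx2 : x < pos c + 1) (hy1 : pos c - 1 < y) (hy2 : y < pos c + 1) :
    0 < x * y - 100 := by
  interval_cases c <;> simp only [pos] at * <;> first | omega | nlinarith

/-- cluster of a hull index -/
def cl (m i : ℕ) : ℕ := min (i / m) 6

theorem cl_le (m i : ℕ) : cl m i ≤ 6 := min_le_right _ _

theorem cl_mono (m : ℕ) {i j : ℕ} (h : i ≤ j) : cl m i ≤ cl m j :=
  min_le_min (Nat.div_le_div_right h) le_rfl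

theorem cl_idx {m c x : ℕ} (hc : c ≤ 6) (hx : x < m) : cl m (c * m + x) = c := by
  have : (c * m + x) / m = c := by
    rw [add_comm, Nat.add_mul_div_right _ _ (by omega : 0 < m), Nat.div_eq_of_lt hx, zero_add]
  simp only [cl, this]
  omega

/-- hull point: on the parabola `y = x ^ 2` -/
noncomputable def hx (n m i : ℕ) : ℝ := pos (cl m i) + i / n

/-- centre point: on the parabola `y = x ^ 2 + 100` -/
noncomputable def cx (n i : ℕ) : ℝ := i / n

/-- the point set: indices below `h` are hull points, the others centre points -/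
noncomputable def pt (n m h i : ℕ) : ℝ × ℝ :=
  if i < h then (hx n m i, hx n m i ^ 2) else (cx n i, cx n i ^ 2 + 100)

theorem frac_lt {n i j : ℕ} (h : i < j) (hj : j < n) : (i : ℝ) / n < j / n := by
  have hn : (0 : ℝ) < n := by exact_mod_cast (by omega : 0 < n)
  exact div_lt_div_of_pos_right (by exact_mod_cast h) hn

theorem frac_mem {n i : ℕ} (h : i < n) : 0 ≤ (i : ℝ) / n ∧ (i : ℝ) / n < 1 := by
  have hn : (0 : ℝ) < n := by exact_mod_cast (by omega : 0 < n)
  exact ⟨by positivity, (div_lt_one hn).2 (by exact_mod_cast h)⟩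

theorem hx_lt {n m i j : ℕ} (h : i < j) (hj : j < n) : hx n m i < hx n m j := by
  have := pos_mono (cl_mono m h.le)
  have := frac_lt h hj
  simp only [hx]
  linarith

theorem cx_lt {n i j : ℕ} (h : i < j) (hj : j < n) : cx n i < cx n j := frac_lt h hj

theorem diff_mem {n m i v : ℕ} (hi : i < n) (hv : v < n) :
    pos (cl m i) - 1 < hx n m i - cx n v ∧ hx n m i - cx n v < pos (cl m i) + 1 := by
  have := frac_mem hi
  have := frac_mem hv
  simp only [hx, cx]
  constructor <;> linarith

/-- side of a centre point with respect to a chord -/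
noncomputable def phi (n m a b v : ℕ) : ℝ := (hx n m a - cx n v) * (hx n m b - cx n v) + 100

/-- side of a hull point with respect to a line through two centre points -/
noncomputable def psi (n m a v w : ℕ) : ℝ := (hx n m a - cx n v) * (hx n m a - cx n w) - 100

theorem phi_comm (n m a b v : ℕ) : phi n m a b v = phi n m b a v := by
  simp only [phi]
  ring

theorem phi_pos {n m a b v : ℕ} (ha : a < n) (hb : b < n) (hv : v < n)
    (h1 : cl m a ≤ cl m b) (h2 : cl m b ≤ cl m a + 3) : 0 < phi n m a b v :=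
  near_pos (cl_le m b) h1 h2 (diff_mem ha hv).1 (diff_mem ha hv).2 (diff_mem hb hv).1
    (diff_mem hb hv).2

theorem phi_neg {n m a b v : ℕ} (ha : a < n) (hb : b < n) (hv : v < n)
    (h2 : cl m a + 4 ≤ cl m b) : phi n m a b v < 0 :=
  far_neg (cl_le m b) h2 (diff_mem ha hv).1 (diff_mem ha hv).2 (diff_mem hb hv).1
    (diff_mem hb hv).2

theorem phi_ne {n m a b v : ℕ} (ha : a < n) (hb : b < n) (hv : v < n) : phi n m a b v ≠ 0 := by
  rcases le_total (cl m a) (cl m b) with h | h
  · by_cases h2 : cl m b ≤ cl m a + 3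
    · exact (phi_pos ha hb hv h h2).ne'
    · exact (phi_neg ha hb hv (by omega)).ne
  · rw [phi_comm]
    by_cases h2 : cl m a ≤ cl m b + 3
    · exact (phi_pos hb ha hv h h2).ne'
    · exact (phi_neg hb ha hv (by omega)).ne

theorem psi_neg {n m a v w : ℕ} (ha : a < n) (hv : v < n) (hw : w < n)
    (h1 : 2 ≤ cl m a) (h2 : cl m a ≤ 4) : psi n m a v w < 0 :=
  low_neg h1 h2 (diff_mem ha hv).1 (diff_mem ha hv).2 (diff_mem ha hw).1 (diff_mem ha hw).2

theorem psi_pos {n m a v w : ℕ} (ha : a < n) (hv : v < n) (hw : w < n)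
    (h1 : cl m a < 2 ∨ 4 < cl m a) : 0 < psi n m a v w :=
  high_pos (cl_le m a) h1 (diff_mem ha hv).1 (diff_mem ha hv).2 (diff_mem ha hw).1
    (diff_mem ha hw).2

theorem psi_ne {n m a v w : ℕ} (ha : a < n) (hv : v < n) (hw : w < n) : psi n m a v w ≠ 0 := by
  by_cases h : 2 ≤ cl m a ∧ cl m a ≤ 4
  · exact (psi_neg ha hv hw h.1 h.2).ne
  · exact (psi_pos ha hv hw (by omega)).ne'

theorem area_hhh {n m h a b c : ℕ} (ha : a < h) (hb : b < h) (hc : c < h) :
    area (pt n m h a) (pt n m h b) (pt n m h c) =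
      (hx n m b - hx n m a) * (hx n m c - hx n m a) * (hx n m c - hx n m b) := by
  simp only [pt, ha, hb, hc, if_true, area]
  ring

theorem area_ccc {n m h a b c : ℕ} (ha : ¬ a < h) (hb : ¬ b < h) (hc : ¬ c < h) :
    area (pt n m h a) (pt n m h b) (pt n m h c) =
      (cx n b - cx n a) * (cx n c - cx n a) * (cx n c - cx n b) := by
  simp only [pt, ha, hb, hc, if_false, area]
  ring

theorem area_hhc {n m h a b v : ℕ} (ha : a < h) (hb : b < h) (hv : ¬ v < h) :
    area (pt n m h a) (pt n m h b) (pt n m h v) = (hx n m b - hx n m a) * phi n m a b v := by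
  simp only [pt, ha, hb, hv, if_true, if_false, area, phi]
  ring

theorem area_hch {n m h a b v : ℕ} (ha : a < h) (hb : b < h) (hv : ¬ v < h) :
    area (pt n m h a) (pt n m h v) (pt n m h b) = (hx n m a - hx n m b) * phi n m a b v := by
  simp only [pt, ha, hb, hv, if_true, if_false, area, phi]
  ring

theorem area_chh {n m h a b v : ℕ} (ha : a < h) (hb : b < h) (hv : ¬ v < h) :
    area (pt n m h v) (pt n m h a) (pt n m h b) = (hx n m b - hx n m a) * phi n m a b v := by
  simp only [pt, ha, hb, hv, if_true, if_false, area, phi]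
  ring

theorem area_hcc {n m h a v w : ℕ} (ha : a < h) (hv : ¬ v < h) (hw : ¬ w < h) :
    area (pt n m h a) (pt n m h v) (pt n m h w) = (cx n w - cx n v) * psi n m a v w := by
  simp only [pt, ha, hv, hw, if_true, if_false, area, psi]
  ring

theorem area_chc {n m h a v w : ℕ} (ha : a < h) (hv : ¬ v < h) (hw : ¬ w < h) :
    area (pt n m h v) (pt n m h a) (pt n m h w) = (cx n v - cx n w) * psi n m a v w := by
  simp only [pt, ha, hv, hw, if_true, if_false, area, psi]
  ring

theorem area_cch {n m h a v w : ℕ} (ha : a < h) (hv : ¬ v < h) (hw : ¬ w < h) :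
    area (pt n m h v) (pt n m h w) (pt n m h a) = (cx n w - cx n v) * psi n m a v w := by
  simp only [pt, ha, hv, hw, if_true, if_false, area, psi]
  ring

theorem hx_ne {n m i j : ℕ} (h : i ≠ j) (hi : i < n) (hj : j < n) : hx n m i - hx n m j ≠ 0 := by
  rcases Nat.lt_or_gt_of_ne h with h | h
  · exact (sub_neg.2 (hx_lt h hj)).ne
  · exact (sub_pos.2 (hx_lt h hi)).ne'

theorem cx_ne {n i j : ℕ} (h : i ≠ j) (hi : i < n) (hj : j < n) : cx n i - cx n j ≠ 0 := by
  rcases Nat.lt_or_gt_of_ne h with h | h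
  · exact (sub_neg.2 (cx_lt h hj)).ne
  · exact (sub_pos.2 (cx_lt h hi)).ne'

theorem area_ne {n m h i j l : ℕ} (hi : i < n) (hj : j < n) (hl : l < n) (hij : i ≠ j)
    (hjl : j ≠ l) (hil : i ≠ l) : area (pt n m h i) (pt n m h j) (pt n m h l) ≠ 0 := by
  by_cases a : i < h <;> by_cases b : j < h <;> by_cases c : l < h
  · rw [area_hhh a b c]
    exact mul_ne_zero (mul_ne_zero (hx_ne hij.symm hj hi) (hx_ne hil.symm hl hi))
      (hx_ne hjl.symm hl hj)
  · rw [area_hhc a b c]
    exact mul_ne_zero (hx_ne hij.symm hj hi) (phi_ne hi hj hl)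
  · rw [area_hch a c b]
    exact mul_ne_zero (hx_ne hil hi hl) (phi_ne hi hl hj)
  · rw [area_hcc a b c]
    exact mul_ne_zero (cx_ne hjl.symm hl hj) (psi_ne hi hj hl)
  · rw [area_chh b c a]
    exact mul_ne_zero (hx_ne hjl.symm hl hj) (phi_ne hj hl hi)
  · rw [area_chc b a c]
    exact mul_ne_zero (cx_ne hil hi hl) (psi_ne hj hi hl)
  · rw [area_cch c a b]
    exact mul_ne_zero (cx_ne hij.symm hj hi) (psi_ne hl hi hj)
  · rw [area_ccc a b c]
    exact mul_ne_zero (mul_ne_zero (cx_ne hij.symm hj hi) (cx_ne hil.symm hl hi))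
      (cx_ne hjl.symm hl hj)

theorem pt_ne {n m h i j : ℕ} (hi : i < n) (hj : j < n) (hij : i ≠ j) :
    pt n m h i ≠ pt n m h j := by
  intro e
  have e1 := congrArg Prod.fst e
  have e2 := congrArg Prod.snd e
  by_cases a : i < h <;> by_cases b : j < h <;>
    simp only [pt, a, b, if_true, if_false] at e1 e2
  · exact hx_ne hij hi hj (sub_eq_zero.2 e1)
  · rw [e1] at e2
    linarith
  · rw [e1] at e2
    linarith
  · exact cx_ne hij hi hj (sub_eq_zero.2 e1)

end Pool.Agent.Lib.MP_aa3337_co.LB
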