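import Mathlib
import Pool.Agent.Lib.MP_aa3337_co.LBGeo
import Pool.Agent.Lib.MP_aa3337_co.LBCount

set_option autoImplicit false

namespace Pool.Agent.Lib.MP_aa3337_co.LB

/-- a colouring of index pairs in which separated pairs of segments differ -/
structure Proper (n m h K : ℕ) (col : ℕ → ℕ → ℕ) : Prop where
  symm : ∀ i j, col i j = col j i
  lt : ∀ i j, i < n → j < n → i ≠ j → col i j < K
  ne : ∀ i j a b, i < n → j < n → a < n → b < n →
    area (pt n m h i) (pt n m h j) (pt n m h a) * area (pt n m h i) (pt n m h j) (pt n m h b) < 0 →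
    area (pt n m h a) (pt n m h b) (pt n m h i) * area (pt n m h a) (pt n m h b) (pt n m h j) < 0 →
    col i j ≠ col a b

section

variable {n m h K : ℕ} {col : ℕ → ℕ → ℕ}

theorem hh (P : Proper n m h K col) (hn : h ≤ n) {a b c d : ℕ} (h1 : a < b) (h2 : b < c)
    (h3 : c < d) (h4 : d < h) : col a c ≠ col b d := by
  have ab := sub_pos.2 (hx_lt (n := n) (m := m) h1 (by omega))
  have ac := sub_pos.2 (hx_lt (n := n) (m := m) (h1.trans h2) (by omega))
  have ad := sub_pos.2 (hx_lt (n := n) (m := m) ((h1.trans h2).trans h3) (by omega))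
  have bd := sub_pos.2 (hx_lt (n := n) (m := m) (h2.trans h3) (by omega))
  have cd := sub_pos.2 (hx_lt (n := n) (m := m) h3 (by omega))
  have bc := sub_pos.2 (hx_lt (n := n) (m := m) h2 (by omega))
  have ba := sub_neg.2 (hx_lt (n := n) (m := m) h1 (by omega))
  have cb := sub_neg.2 (hx_lt (n := n) (m := m) h2 (by omega))
  have da := sub_neg.2 (hx_lt (n := n) (m := m) ((h1.trans h2).trans h3) (by omega))
  have dc := sub_neg.2 (hx_lt (n := n) (m := m) h3 (by omega))
  apply P.ne a c b d (by omega) (by omega) (by omega) (by omega)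
  · rw [area_hhh (by omega) (by omega) (by omega), area_hhh (by omega) (by omega) (by omega)]
    exact mul_neg_of_neg_of_pos (mul_neg_of_pos_of_neg (mul_pos ac ab) cb)
      (mul_pos (mul_pos ac ad) cd)
  · rw [area_hhh (by omega) (by omega) (by omega), area_hhh (by omega) (by omega) (by omega)]
    exact mul_neg_of_pos_of_neg (mul_pos_of_neg_of_neg (mul_neg_of_pos_of_neg bd ba) da)
      (mul_neg_of_pos_of_neg (mul_pos bd bc) dc)

theorem hh' (P : Proper n m h K col) (hn : h ≤ n) {a b c d : ℕ} (ha : a < h) (hb : b < h)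
    (hc : c < h) (hd : d < h)
    (hx : (min a c < min b d ∧ min b d < max a c ∧ max a c < max b d) ∨
      (min b d < min a c ∧ min a c < max b d ∧ max b d < max a c)) : col a c ≠ col b d := by
  have e1 : col a c = col (min a c) (max a c) := by
    rcases le_total a c with t | t
    · rw [min_eq_left t, max_eq_right t]
    · rw [min_eq_right t, max_eq_left t, P.symm]
  have e2 : col b d = col (min b d) (max b d) := by
    rcases le_total b d with t | t
    · rw [min_eq_left t, max_eq_right t]
    · rw [min_eq_right t, max_eq_left t, P.symm]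
  rw [e1, e2]
  rcases hx with ⟨h1, h2, h3⟩ | ⟨h1, h2, h3⟩
  · exact hh P hn h1 h2 h3 (by omega)
  · exact (hh P hn h1 h2 h3 (by omega)).symm

theorem rc1 (P : Proper n m h K col) {a b z v : ℕ} (h1 : a < z) (h2 : z < b)
    (h3 : b < h) (hv : ¬ v < h) (hvn : v < n) (hc : cl m b ≤ cl m a + 3) : col z v ≠ col a b := by
  have az := sub_pos.2 (hx_lt (n := n) (m := m) h1 (by omega))
  have ab := sub_pos.2 (hx_lt (n := n) (m := m) (h1.trans h2) (by omega))
  have bz := sub_neg.2 (hx_lt (n := n) (m := m) h2 (by omega))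
  have c1 := cl_mono m h1.le
  have c2 := cl_mono m h2.le
  have p1 : 0 < phi n m a b v := phi_pos (by omega) (by omega) hvn (by omega) hc
  have p2 : 0 < phi n m z a v := by
    rw [phi_comm]
    exact phi_pos (by omega) (by omega) hvn (by omega) (by omega)
  have p3 : 0 < phi n m z b v := phi_pos (by omega) (by omega) hvn (by omega) (by omega)
  apply P.ne z v a b (by omega) hvn (by omega) (by omega)
  · rw [area_hch (by omega) (by omega) hv, area_hch (by omega) (by omega) hv]
    exact mul_neg_of_pos_of_neg (mul_pos az p2) (mul_neg_of_neg_of_pos bz p3)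
  · rw [area_hhh (by omega) (by omega) (by omega), area_hhc (by omega) (by omega) hv]
    exact mul_neg_of_neg_of_pos (mul_neg_of_pos_of_neg (mul_pos ab az) bz) (mul_pos ab p1)

theorem rc2 (P : Proper n m h K col) {a b z v : ℕ} (h1 : a < b) (h2 : b < z)
    (h3 : z < h) (hv : ¬ v < h) (hvn : v < n) (hc : cl m a + 4 ≤ cl m b) : col z v ≠ col a b := by
  have ab := sub_pos.2 (hx_lt (n := n) (m := m) h1 (by omega))
  have az := sub_pos.2 (hx_lt (n := n) (m := m) (h1.trans h2) (by omega))
  have bz := sub_pos.2 (hx_lt (n := n) (m := m) h2 (by omega))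
  have c2 := cl_mono m h2.le
  have c3 := cl_le m z
  have p1 : phi n m a b v < 0 := phi_neg (by omega) (by omega) hvn hc
  have p2 : phi n m z a v < 0 := by
    rw [phi_comm]
    exact phi_neg (by omega) (by omega) hvn (by omega)
  have p3 : 0 < phi n m z b v := by
    rw [phi_comm]
    exact phi_pos (by omega) (by omega) hvn (by omega) (by omega)
  apply P.ne z v a b (by omega) hvn (by omega) (by omega)
  · rw [area_hch (by omega) (by omega) hv, area_hch (by omega) (by omega) hv]
    exact mul_neg_of_neg_of_pos (mul_neg_of_pos_of_neg az p2) (mul_pos bz p3)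
  · rw [area_hhh (by omega) (by omega) (by omega), area_hhc (by omega) (by omega) hv]
    exact mul_neg_of_pos_of_neg (mul_pos (mul_pos ab az) bz) (mul_neg_of_pos_of_neg ab p1)

theorem rc3 (P : Proper n m h K col) {a b z v : ℕ} (h1 : z < a) (h2 : a < b)
    (h3 : b < h) (hv : ¬ v < h) (hvn : v < n) (hc : cl m a + 4 ≤ cl m b) : col z v ≠ col a b := by
  have ab := sub_pos.2 (hx_lt (n := n) (m := m) h2 (by omega))
  have az := sub_neg.2 (hx_lt (n := n) (m := m) h1 (by omega))
  have bz := sub_neg.2 (hx_lt (n := n) (m := m) (h1.trans h2) (by omega))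
  have c1 := cl_mono m h1.le
  have c3 := cl_le m b
  have p1 : phi n m a b v < 0 := phi_neg (by omega) (by omega) hvn hc
  have p2 : 0 < phi n m z a v := phi_pos (by omega) (by omega) hvn (by omega) (by omega)
  have p3 : phi n m z b v < 0 := phi_neg (by omega) (by omega) hvn (by omega)
  apply P.ne z v a b (by omega) hvn (by omega) (by omega)
  · rw [area_hch (by omega) (by omega) hv, area_hch (by omega) (by omega) hv]
    exact mul_neg_of_neg_of_pos (mul_neg_of_neg_of_pos az p2) (mul_pos_of_neg_of_neg bz p3)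
  · rw [area_hhh (by omega) (by omega) (by omega), area_hhc (by omega) (by omega) hv]
    exact mul_neg_of_pos_of_neg (mul_pos_of_neg_of_neg (mul_neg_of_pos_of_neg ab az) bz)
      (mul_neg_of_pos_of_neg ab p1)

theorem rr_low (P : Proper n m h K col) {z z' v w : ℕ} (h1 : z < z') (h2 : z' < h)
    (hw : ¬ w < h) (hwv : w < v) (hvn : v < n) (hc : cl m z = cl m z') (c1 : 2 ≤ cl m z)
    (c2 : cl m z ≤ 4) : col z v ≠ col z' w := by
  have zz := sub_pos.2 (hx_lt (n := n) (m := m) h1 (by omega))
  have zz' := sub_neg.2 (hx_lt (n := n) (m := m) h1 (by omega))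
  have wv := sub_pos.2 (cx_lt hwv hvn)
  have vw := sub_neg.2 (cx_lt hwv hvn)
  have p1 : 0 < phi n m z z' v := phi_pos (by omega) (by omega) hvn (by omega) (by omega)
  have p2 : 0 < phi n m z' z w := phi_pos (by omega) (by omega) (by omega) (by omega) (by omega)
  have q1 : psi n m z v w < 0 := psi_neg (by omega) hvn (by omega) c1 c2
  have q2 : psi n m z' w v < 0 := psi_neg (by omega) (by omega) hvn (by omega) (by omega)
  apply P.ne z v z' w (by omega) hvn (by omega) (by omega)
  · rw [area_hch (by omega) (by omega) (by omega), area_hcc (by omega) (by omega) hw]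
    exact mul_neg_of_neg_of_pos (mul_neg_of_neg_of_pos zz' p1) (mul_pos_of_neg_of_neg vw q1)
  · rw [area_hch (by omega) (by omega) hw, area_hcc (by omega) hw (by omega)]
    exact mul_neg_of_pos_of_neg (mul_pos zz p2) (mul_neg_of_pos_of_neg wv q2)

theorem rr_high (P : Proper n m h K col) {z z' v w : ℕ} (h1 : z < z') (h2 : z' < h)
    (hv : ¬ v < h) (hvw : v < w) (hwn : w < n) (hc : cl m z = cl m z')
    (c1 : cl m z < 2 ∨ 4 < cl m z) : col z v ≠ col z' w := by
  have zz := sub_pos.2 (hx_lt (n := n) (m := m) h1 (by omega))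
  have zz' := sub_neg.2 (hx_lt (n := n) (m := m) h1 (by omega))
  have wv := sub_neg.2 (cx_lt hvw hwn)
  have vw := sub_pos.2 (cx_lt hvw hwn)
  have p1 : 0 < phi n m z z' v := phi_pos (by omega) (by omega) (by omega) (by omega) (by omega)
  have p2 : 0 < phi n m z' z w := phi_pos (by omega) (by omega) hwn (by omega) (by omega)
  have q1 : 0 < psi n m z v w := psi_pos (by omega) (by omega) hwn c1
  have q2 : 0 < psi n m z' w v := psi_pos (by omega) hwn (by omega) (by omega)
  apply P.ne z v z' w (by omega) (by omega) (by omega) hwn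
  · rw [area_hch (by omega) (by omega) hv, area_hcc (by omega) hv (by omega)]
    exact mul_neg_of_neg_of_pos (mul_neg_of_neg_of_pos zz' p1) (mul_pos vw q1)
  · rw [area_hch (by omega) (by omega) (by omega), area_hcc (by omega) (by omega) hv]
    exact mul_neg_of_pos_of_neg (mul_pos zz p2) (mul_neg_of_neg_of_pos wv q2)

theorem v1 : ∀ i : Fin 7, (i + 1).val = (i.val + 1) % 7 := by decide
theorem v2 : ∀ i : Fin 7, (i + 2).val = (i.val + 2) % 7 := by decide
theorem v3 : ∀ i : Fin 7, (i + 3).val = (i.val + 3) % 7 := by decide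

theorem rc (P : Proper n m h K col) (hm : 7 * m ≤ h) {i c x y z v : ℕ} (hi : i < 7)
    (hc : c < 7) (hx : x < m) (hy : y < m) (hz : z < m) (hv : ¬ v < h) (hvn : v < n)
    (hcase : (c = i ∧ x < z) ∨ c = (i + 1) % 7 ∨ c = (i + 2) % 7 ∨ (c = (i + 3) % 7 ∧ z < y)) :
    col (c * m + z) v ≠ col (i * m + x) ((i + 3) % 7 * m + y) := by
  have e1 : cl m (i * m + x) = i := cl_idx (by omega) hx
  have e2 : cl m ((i + 3) % 7 * m + y) = (i + 3) % 7 := cl_idx (by omega) hy
  by_cases h4 : i < 4
  · apply rc1 P _ _ _ hv hvn (by omega)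
    all_goals
        interval_cases i <;> interval_cases c <;>
          (try simp only [Nat.reduceAdd, Nat.reduceMod]) <;> omega
  · rw [P.symm (i * m + x)]
    by_cases h5 : i ≤ c
    · apply rc2 P _ _ _ hv hvn (by omega)
      all_goals
        interval_cases i <;> interval_cases c <;>
          (try simp only [Nat.reduceAdd, Nat.reduceMod]) <;> omega
    · apply rc3 P _ _ _ hv hvn (by omega)
      all_goals
        interval_cases i <;> interval_cases c <;>
          (try simp only [Nat.reduceAdd, Nat.reduceMod]) <;> omega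

theorem hyp_of_proper {s : ℕ} (P : Proper n m h K col) (hm : 7 * m ≤ h) (hs : h + s ≤ n) :
    Hyp m s K (fun i x y => col (i.val * m + x) ((i.val + 3) % 7 * m + y))
      (fun c z v => col (c.val * m + z)
        (if 2 ≤ c.val ∧ c.val ≤ 4 then h + v else h + (s - 1 - v))) := by
  have hrow : ∀ (c v : ℕ), v < s →
      ¬ (if 2 ≤ c ∧ c ≤ 4 then h + v else h + (s - 1 - v)) < h ∧
      (if 2 ≤ c ∧ c ≤ 4 then h + v else h + (s - 1 - v)) < n := by
    intro c v hv
    split_ifs <;> omega
  constructor
  · rintro ⟨i, hi⟩ x y h1 h2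
    apply P.lt
    all_goals
      try simp only []
      interval_cases i <;> (try simp only [Nat.reduceAdd, Nat.reduceMod]) <;> omega
  · rintro ⟨c, hc⟩ z v h1 h2
    have := hrow c v h2
    apply P.lt _ _ _ this.2
    all_goals
      try simp only []
      interval_cases c <;> omega
  · rintro ⟨i, hi⟩ x y x' y' h1 h2 h3 h4 h5
    apply hh' P (by omega)
    all_goals
      try simp only []
      interval_cases i <;> (try simp only [Nat.reduceAdd, Nat.reduceMod]) <;> omega
  · intro i x y x' y' h1 h2 h3 h4
    simp only [v1]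
    obtain ⟨i, hi⟩ := i
    apply hh' P (by omega)
    all_goals
      try simp only []
      interval_cases i <;> (try simp only [Nat.reduceAdd, Nat.reduceMod]) <;> omega
  · intro i x y x' y' h1 h2 h3 h4
    simp only [v2]
    obtain ⟨i, hi⟩ := i
    apply hh' P (by omega)
    all_goals
      try simp only []
      interval_cases i <;> (try simp only [Nat.reduceAdd, Nat.reduceMod]) <;> omega
  · intro i x y x' y' h1 h2 h3 h4 h5
    simp only [v3]
    obtain ⟨i, hi⟩ := i
    apply hh' P (by omega)
    all_goals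
      try simp only []
      interval_cases i <;> (try simp only [Nat.reduceAdd, Nat.reduceMod]) <;> omega
  · intro i x y z v h1 h2 h3 h4 h5
    exact rc P hm i.2 i.2 (by omega) h2 h3 (hrow _ v h4).1 (hrow _ v h4).2 (Or.inl ⟨rfl, h5⟩)
  · intro i x y z v h1 h2 h3 h4
    exact rc P hm i.2 (i + 1).2 (by omega) h2 h3 (hrow _ v h4).1 (hrow _ v h4).2
      (Or.inr (Or.inl (v1 i)))
  · intro i x y z v h1 h2 h3 h4
    exact rc P hm i.2 (i + 2).2 (by omega) h2 h3 (hrow _ v h4).1 (hrow _ v h4).2
      (Or.inr (Or.inr (Or.inl (v2 i))))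
  · intro i x y z v h1 h2 h3 h4 h5
    exact rc P hm i.2 (i + 3).2 (by omega) h2 h3 (hrow _ v h4).1 (hrow _ v h4).2
      (Or.inr (Or.inr (Or.inr ⟨v3 i, h5⟩)))
  · rintro ⟨c, hc⟩ x x' v v' h1 h2 h3 h4
    have e1 : cl m (c * m + x) = c := cl_idx (by omega) (by omega)
    have e2 : cl m (c * m + x') = c := cl_idx (by omega) h2
    have e3 : c * m + x' < h := by interval_cases c <;> omega
    simp only []
    split_ifs with hcc
    · exact rr_low P (by omega) e3 (by omega) (by omega) (by omega) (by omega) (by omega)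
        (by omega)
    · exact rr_high P (by omega) e3 (by omega) (by omega) (by omega) (by omega) (by omega)

end

end Pool.Agent.Lib.MP_aa3337_co.LB
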