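import Mathlib
import Pool.Agent.Lib.MP_aa3337_co.Cover

set_option autoImplicit false

namespace Pool.Agent.Lib.MP_aa3337_co

variable {V : Type*} {u v : V → ℝ}

theorem rank_lemma (S : Finset V) (g : V → ℝ) {k : ℕ} (hk : 0 < k)
    [DecidablePred fun z => (S.filter fun z' => g z ≤ g z').card < k] :
    (S.filter fun z => (S.filter fun z' => g z ≤ g z').card < k).card < k := by
  classical
  set B := S.filter fun z => (S.filter fun z' => g z ≤ g z').card < k with hB
  rcases B.eq_empty_or_nonempty with h | h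
  · rw [h]; simpa using hk
  · obtain ⟨z, hz, hmin⟩ := Finset.exists_min_image B g h
    have hz' := (Finset.mem_filter.1 hz).2
    refine lt_of_le_of_lt (Finset.card_le_card ?_) hz'
    intro w hw
    exact Finset.mem_filter.2 ⟨(Finset.mem_filter.1 hw).1, hmin w hw⟩

theorem exists_good (X Z : Finset V) (P Q : V → V → Prop) {a N : ℕ}
    [∀ x, DecidablePred (P x)] [∀ z, DecidablePred fun x => Q x z]
    (hX : X.card = N) (hZ : Z.card = N) (hP : ∀ x ∈ X, (Z.filter (P x)).card ≤ a)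
    (hQ : ∀ z ∈ Z, (X.filter fun x => Q x z).card ≤ a) (ha : 2 * a < N) :
    ∃ x ∈ X, ∃ z ∈ Z, ¬ P x z ∧ ¬ Q x z := by
  classical
  by_contra hcon
  push Not at hcon
  have h1 : ∑ x ∈ X, ∑ z ∈ Z, (1 : ℕ) ≤
      ∑ x ∈ X, ∑ z ∈ Z, ((if P x z then 1 else 0) + (if Q x z then 1 else 0)) := by
    refine Finset.sum_le_sum fun x hx => Finset.sum_le_sum fun z hz => ?_
    by_cases hp : P x z
    · simp [hp]
    · simp [hp, hcon x hx z hz hp]
  have h2 : ∑ x ∈ X, ∑ z ∈ Z, (if P x z then 1 else 0) ≤ N * a := by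
    calc ∑ x ∈ X, ∑ z ∈ Z, (if P x z then 1 else 0) ≤ ∑ x ∈ X, a := by
          refine Finset.sum_le_sum fun x hx => ?_
          rw [← Finset.card_filter]
          exact hP x hx
      _ = N * a := by simp [hX]
  have h3 : ∑ x ∈ X, ∑ z ∈ Z, (if Q x z then 1 else 0) ≤ N * a := by
    rw [Finset.sum_comm]
    calc ∑ z ∈ Z, ∑ x ∈ X, (if Q x z then 1 else 0) ≤ ∑ z ∈ Z, a := by
          refine Finset.sum_le_sum fun z hz => ?_
          rw [← Finset.card_filter]
          exact hQ z hz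
      _ = N * a := by simp [hZ]
  simp only [Finset.sum_add_distrib] at h1
  simp only [Finset.sum_const, hX, hZ, smul_eq_mul, mul_one] at h1
  have hN : 0 < N := by omega
  have : N * (2 * a) < N * N := Nat.mul_lt_mul_of_pos_left ha hN
  nlinarith

/-- Seen from a point `x` with all of `Z` on one side in the first coordinate, few points of `Z`
span with `x` a line having fewer than `k` points of `Z` on one of its sides. -/
theorem few_unbalanced (x : V) (Z : Finset V) {k : ℕ} (hk : 0 < k)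
    (hs : ∀ z ∈ Z, ∀ z' ∈ Z, 0 < (u z - u x) * (u z' - u x))
    [DecidablePred fun z => (Z.filter fun z' => 0 ≤ det u v x z z').card < k ∨
      (Z.filter fun z' => det u v x z z' ≤ 0).card < k] :
    (Z.filter fun z => (Z.filter fun z' => 0 ≤ det u v x z z').card < k ∨
      (Z.filter fun z' => det u v x z z' ≤ 0).card < k).card ≤ 2 * k - 2 := by
  classical
  set g : V → ℝ := fun z => (v z - v x) / (u z - u x) with hg
  have key : ∀ z ∈ Z, ∀ z' ∈ Z, det u v x z z' = (u z - u x) * (u z' - u x) * (g z' - g z) := by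
    intro z hz z' hz'
    have h1 : u z - u x ≠ 0 := by
      intro h
      have := hs z hz z' hz'
      rw [h] at this
      simp at this
    have h2 : u z' - u x ≠ 0 := by
      intro h
      have := hs z hz z' hz'
      rw [h] at this
      simp at this
    simp only [hg]
    unfold det
    field_simp
  have r1 := rank_lemma Z g hk
  have r2 := rank_lemma Z (fun z => - g z) hk
  have hsub : (Z.filter fun z => (Z.filter fun z' => 0 ≤ det u v x z z').card < k ∨
      (Z.filter fun z' => det u v x z z' ≤ 0).card < k) ⊆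
      (Z.filter fun z => (Z.filter fun z' => g z ≤ g z').card < k) ∪
      (Z.filter fun z => (Z.filter fun z' => - g z ≤ - g z').card < k) := by
    intro z hz
    obtain ⟨hz, h⟩ := Finset.mem_filter.1 hz
    rcases h with h | h
    · refine Finset.mem_union_left _ (Finset.mem_filter.2 ⟨hz, lt_of_le_of_lt
        (Finset.card_le_card ?_) h⟩)
      intro w hw
      obtain ⟨hw, h'⟩ := Finset.mem_filter.1 hw
      refine Finset.mem_filter.2 ⟨hw, ?_⟩
      rw [key z hz w hw]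
      exact mul_nonneg (hs z hz w hw).le (sub_nonneg.2 h')
    · refine Finset.mem_union_right _ (Finset.mem_filter.2 ⟨hz, lt_of_le_of_lt
        (Finset.card_le_card ?_) h⟩)
      intro w hw
      obtain ⟨hw, h'⟩ := Finset.mem_filter.1 hw
      refine Finset.mem_filter.2 ⟨hw, ?_⟩
      rw [key z hz w hw]
      exact mul_nonpos_of_nonneg_of_nonpos (hs z hz w hw).le (by linarith)
  have := (Finset.card_le_card hsub).trans (Finset.card_union_le _ _)
  omega

theorem det_of_line {p q x y z : V} (hpq : u p < u q) (hxy : u x < u y) (hyz : u y < u z)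
    (hx : 0 ≤ det u v p q x) (hy : det u v p q y ≤ 0) (hz : 0 ≤ det u v p q z) :
    0 ≤ det u v x y z := by
  have key : (u q - u p) * det u v x y z = det u v p q z * (u y - u x)
      + det u v p q x * (u z - u y) - det u v p q y * (u z - u x) := by
    unfold det; ring
  have h1 := mul_nonneg hz (sub_pos.2 hxy).le
  have h2 := mul_nonneg hx (sub_pos.2 hyz).le
  have h3 := mul_nonneg (neg_nonneg.2 hy) (sub_pos.2 (hxy.trans hyz)).le
  have h4 : 0 ≤ (u q - u p) * det u v x y z := by rw [key]; linarith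
  exact nonneg_of_mul_nonneg_right h4 (sub_pos.2 hpq) |> fun h => h

theorem det_of_line' {p q x y z : V} (hpq : u p < u q) (hxy : u x < u y) (hyz : u y < u z)
    (hx : det u v p q x ≤ 0) (hy : 0 ≤ det u v p q y) (hz : det u v p q z ≤ 0) :
    det u v x y z ≤ 0 := by
  have key : (u q - u p) * det u v x y z = det u v p q z * (u y - u x)
      + det u v p q x * (u z - u y) - det u v p q y * (u z - u x) := by
    unfold det; ring
  have h1 := mul_nonneg (neg_nonneg.2 hz) (sub_pos.2 hxy).le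
  have h2 := mul_nonneg (neg_nonneg.2 hx) (sub_pos.2 hyz).le
  have h3 := mul_nonneg hy (sub_pos.2 (hxy.trans hyz)).le
  have h4 : (u q - u p) * det u v x y z ≤ 0 := by rw [key]; linarith
  by_contra h
  push Not at h
  have := mul_pos (sub_pos.2 hpq) h
  linarith

/-- Constant orientation on `X × Y × Z`. -/
def Const (u v : V → ℝ) (X Y Z : Finset V) : Prop :=
  (∀ x ∈ X, ∀ y ∈ Y, ∀ z ∈ Z, 0 < det u v x y z) ∨
    (∀ x ∈ X, ∀ y ∈ Y, ∀ z ∈ Z, det u v x y z < 0)

theorem Const.mono {X Y Z X' Y' Z' : Finset V} (h : Const u v X Y Z) (hX : X' ⊆ X)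
    (hY : Y' ⊆ Y) (hZ : Z' ⊆ Z) : Const u v X' Y' Z' := by
  rcases h with h | h
  · exact Or.inl fun x hx y hy z hz => h x (hX hx) y (hY hy) z (hZ hz)
  · exact Or.inr fun x hx y hy z hz => h x (hX hx) y (hY hy) z (hZ hz)

/-- Same-type lemma for three vertical strips. -/
theorem triple (hgp : ∀ a b c : V, a ≠ b → b ≠ c → a ≠ c → det u v a b c ≠ 0) {k : ℕ}
    (hk : 0 < k) {X Y Z : Finset V} (hX : X.card = 4 * k) (hY : Y.card = 4 * k)
    (hZ : Z.card = 4 * k) (hXY : ∀ x ∈ X, ∀ y ∈ Y, u x < u y)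
    (hYZ : ∀ y ∈ Y, ∀ z ∈ Z, u y < u z) :
    ∃ X' ⊆ X, ∃ Y' ⊆ Y, ∃ Z' ⊆ Z, X'.card = k ∧ Y'.card = k ∧ Z'.card = k ∧
      Const u v X' Y' Z' := by
  classical
  obtain ⟨y0, hy0⟩ : Y.Nonempty := Finset.card_pos.1 (by omega)
  have hXZ : ∀ x ∈ X, ∀ z ∈ Z, u x < u z := fun x hx z hz =>
    (hXY x hx y0 hy0).trans (hYZ y0 hy0 z hz)
  obtain ⟨p, hp, q, hq, h1, h2⟩ := exists_good X Z
    (fun x z => (Z.filter fun z' => 0 ≤ det u v x z z').card < k ∨
      (Z.filter fun z' => det u v x z z' ≤ 0).card < k)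
    (fun x z => (X.filter fun x' => 0 ≤ det u v z x x').card < k ∨
      (X.filter fun x' => det u v z x x' ≤ 0).card < k) (a := 2 * k - 2) hX hZ
    (fun x hx => few_unbalanced x Z hk fun z hz z' hz' =>
      mul_pos (sub_pos.2 (hXZ x hx z hz)) (sub_pos.2 (hXZ x hx z' hz')))
    (fun z hz => few_unbalanced z X hk fun x hx x' hx' =>
      mul_pos_of_neg_of_neg (sub_neg.2 (hXZ x hx z hz)) (sub_neg.2 (hXZ x' hx' z hz)))
    (by omega)
  push Not at h1 h2
  obtain ⟨Z1, hZ1, cZ1⟩ := Finset.exists_subset_card_eq h1.1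
  obtain ⟨Z2, hZ2, cZ2⟩ := Finset.exists_subset_card_eq h1.2
  obtain ⟨X2, hX2, cX2⟩ := Finset.exists_subset_card_eq h2.1
  obtain ⟨X1, hX1, cX1⟩ := Finset.exists_subset_card_eq h2.2
  have hpq := hXZ p hp q hq
  have hYc : k ≤ (Y.filter fun y => det u v p q y ≤ 0).card ∨
      k ≤ (Y.filter fun y => 0 ≤ det u v p q y).card := by
    by_contra hcon
    push Not at hcon
    have hsub : Y ⊆ (Y.filter fun y => det u v p q y ≤ 0) ∪
        (Y.filter fun y => 0 ≤ det u v p q y) := by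
      intro y hy
      rcases le_total (det u v p q y) 0 with h | h
      · exact Finset.mem_union_left _ (Finset.mem_filter.2 ⟨hy, h⟩)
      · exact Finset.mem_union_right _ (Finset.mem_filter.2 ⟨hy, h⟩)
    have := (Finset.card_le_card hsub).trans (Finset.card_union_le _ _)
    omega
  have hne : ∀ x ∈ X, ∀ y ∈ Y, ∀ z ∈ Z, det u v x y z ≠ 0 := by
    intro x hx y hy z hz
    refine hgp x y z ?_ ?_ ?_
    · rintro rfl; exact lt_irrefl _ (hXY x hx x hy)
    · rintro rfl; exact lt_irrefl _ (hYZ y hy y hz)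
    · rintro rfl; exact lt_irrefl _ (hXZ x hx x hz)
  rcases hYc with hYc | hYc
  · obtain ⟨Y1, hY1, cY1⟩ := Finset.exists_subset_card_eq hYc
    refine ⟨X1, hX1.trans (Finset.filter_subset _ _), Y1, hY1.trans (Finset.filter_subset _ _),
      Z1, hZ1.trans (Finset.filter_subset _ _), cX1, cY1, cZ1, Or.inl ?_⟩
    intro x hx y hy z hz
    obtain ⟨hx1, hx2⟩ := Finset.mem_filter.1 (hX1 hx)
    obtain ⟨hy1, hy2⟩ := Finset.mem_filter.1 (hY1 hy)
    obtain ⟨hz1, hz2⟩ := Finset.mem_filter.1 (hZ1 hz)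
    refine lt_of_le_of_ne (det_of_line hpq (hXY x hx1 y hy1) (hYZ y hy1 z hz1) ?_ hy2 hz2)
      (hne x hx1 y hy1 z hz1).symm
    rw [det_swap12]
    linarith
  · obtain ⟨Y1, hY1, cY1⟩ := Finset.exists_subset_card_eq hYc
    refine ⟨X2, hX2.trans (Finset.filter_subset _ _), Y1, hY1.trans (Finset.filter_subset _ _),
      Z2, hZ2.trans (Finset.filter_subset _ _), cX2, cY1, cZ2, Or.inr ?_⟩
    intro x hx y hy z hz
    obtain ⟨hx1, hx2⟩ := Finset.mem_filter.1 (hX2 hx)
    obtain ⟨hy1, hy2⟩ := Finset.mem_filter.1 (hY1 hy)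
    obtain ⟨hz1, hz2⟩ := Finset.mem_filter.1 (hZ2 hz)
    refine lt_of_le_of_ne (det_of_line' hpq (hXY x hx1 y hy1) (hYZ y hy1 z hz1) ?_ hy2 hz2)
      (hne x hx1 y hy1 z hz1)
    rw [det_swap12]
    linarith

theorem exists_initial (S : Finset V) [DecidableEq V] (hu : Function.Injective u) (k : ℕ) :
    k ≤ S.card → ∃ T ⊆ S, T.card = k ∧ ∀ a ∈ T, ∀ b ∈ S \ T, u a < u b := by
  induction k with
  | zero => exact fun _ => ⟨∅, by simp, by simp, by simp⟩
  | succ k ih =>
    intro hk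
    obtain ⟨T, hT, hc, hlt⟩ := ih (by omega)
    have hne : (S \ T).Nonempty := by
      rw [← Finset.card_pos, Finset.card_sdiff_of_subset hT]
      omega
    obtain ⟨w, hw, hmin⟩ := Finset.exists_min_image (S \ T) u hne
    obtain ⟨hwS, hwT⟩ := Finset.mem_sdiff.1 hw
    refine ⟨insert w T, Finset.insert_subset hwS hT, by
      rw [Finset.card_insert_of_notMem hwT, hc], ?_⟩
    intro a ha b hb
    obtain ⟨hbS, hbT⟩ := Finset.mem_sdiff.1 hb
    have hb' : b ∈ S \ T := Finset.mem_sdiff.2 ⟨hbS, fun h => hbT (Finset.mem_insert_of_mem h)⟩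
    rcases Finset.mem_insert.1 ha with h | h
    · subst h
      refine lt_of_le_of_ne (hmin b hb') fun h => hbT ?_
      rw [← hu h]
      exact Finset.mem_insert_self _ _
    · exact hlt a h b hb'

/-- Four same-type clusters in vertical strips. -/
theorem four_clusters (hgp : ∀ a b c : V, a ≠ b → b ≠ c → a ≠ c → det u v a b c ≠ 0)
    (hu : Function.Injective u) (S : Finset V) {m : ℕ} (hm : 0 < m) (hS : 1024 * m ≤ S.card) :
    ∃ A B C D : Finset V, A.card = m ∧ B.card = m ∧ C.card = m ∧ D.card = m ∧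
      (∀ x ∈ A, ∀ y ∈ B, u x < u y) ∧ (∀ x ∈ B, ∀ y ∈ C, u x < u y) ∧
      (∀ x ∈ C, ∀ y ∈ D, u x < u y) ∧
      Const u v A B C ∧ Const u v A B D ∧ Const u v A C D ∧ Const u v B C D := by
  classical
  obtain ⟨A0, hA0, cA0, lA0⟩ := exists_initial S hu (256 * m) (by omega)
  have c1 := Finset.card_sdiff_of_subset hA0
  obtain ⟨B0, hB0, cB0, lB0⟩ := exists_initial (S \ A0) hu (256 * m) (by omega)
  have c2 := Finset.card_sdiff_of_subset hB0
  obtain ⟨C0, hC0, cC0, lC0⟩ := exists_initial ((S \ A0) \ B0) hu (256 * m) (by omega)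
  have c3 := Finset.card_sdiff_of_subset hC0
  obtain ⟨D0, hD0, cD0⟩ := Finset.exists_subset_card_eq
    (s := ((S \ A0) \ B0) \ C0) (n := 256 * m) (by omega)
  have lAB : ∀ x ∈ A0, ∀ y ∈ B0, u x < u y := fun x hx y hy => lA0 x hx y (hB0 hy)
  have lBC : ∀ x ∈ B0, ∀ y ∈ C0, u x < u y := fun x hx y hy => lB0 x hx y (hC0 hy)
  have lCD : ∀ x ∈ C0, ∀ y ∈ D0, u x < u y := fun x hx y hy => lC0 x hx y (hD0 hy)
  have lAC : ∀ x ∈ A0, ∀ y ∈ C0, u x < u y := fun x hx y hy =>
    lA0 x hx y (Finset.sdiff_subset (hC0 hy))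
  have lBD : ∀ x ∈ B0, ∀ y ∈ D0, u x < u y := fun x hx y hy =>
    lB0 x hx y (Finset.sdiff_subset (hD0 hy))
  obtain ⟨A1, hA1, B1, hB1, C1, hC1, cA1, cB1, cC1, k1⟩ := triple hgp (k := 64 * m) (by omega)
    (X := A0) (Y := B0) (Z := C0) (by omega) (by omega) (by omega) lAB lBC
  obtain ⟨D1, hD1, cD1⟩ := Finset.exists_subset_card_eq (s := D0) (n := 64 * m) (by omega)
  obtain ⟨A2, hA2, B2, hB2, D2, hD2, cA2, cB2, cD2, k2⟩ := triple hgp (k := 16 * m) (by omega)
    (X := A1) (Y := B1) (Z := D1) (by omega) (by omega) (by omega)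
    (fun x hx y hy => lAB x (hA1 hx) y (hB1 hy)) (fun x hx y hy => lBD x (hB1 hx) y (hD1 hy))
  obtain ⟨C2, hC2, cC2⟩ := Finset.exists_subset_card_eq (s := C1) (n := 16 * m) (by omega)
  obtain ⟨A3, hA3, C3, hC3, D3, hD3, cA3, cC3, cD3, k3⟩ := triple hgp (k := 4 * m) (by omega)
    (X := A2) (Y := C2) (Z := D2) (by omega) (by omega) (by omega)
    (fun x hx y hy => lAC x (hA1 (hA2 hx)) y (hC1 (hC2 hy)))
    (fun x hx y hy => lCD x (hC1 (hC2 hx)) y (hD1 (hD2 hy)))
  obtain ⟨B3, hB3, cB3⟩ := Finset.exists_subset_card_eq (s := B2) (n := 4 * m) (by omega)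
  obtain ⟨B4, hB4, C4, hC4, D4, hD4, cB4, cC4, cD4, k4⟩ := triple hgp (k := m) hm
    (X := B3) (Y := C3) (Z := D3) (by omega) (by omega) (by omega)
    (fun x hx y hy => lBC x (hB1 (hB2 (hB3 hx))) y (hC1 (hC2 (hC3 hy))))
    (fun x hx y hy => lCD x (hC1 (hC2 (hC3 hx))) y (hD1 (hD2 (hD3 hy))))
  obtain ⟨A4, hA4, cA4⟩ := Finset.exists_subset_card_eq (s := A3) (n := m) (by omega)
  refine ⟨A4, B4, C4, D4, cA4, cB4, cC4, cD4,
    fun x hx y hy => lAB x (hA1 (hA2 (hA3 (hA4 hx)))) y (hB1 (hB2 (hB3 (hB4 hy)))),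
    fun x hx y hy => lBC x (hB1 (hB2 (hB3 (hB4 hx)))) y (hC1 (hC2 (hC3 (hC4 hy)))),
    fun x hx y hy => lCD x (hC1 (hC2 (hC3 (hC4 hx)))) y (hD1 (hD2 (hD3 (hD4 hy)))),
    k1.mono (hA4.trans (hA3.trans hA2)) (hB4.trans (hB3.trans hB2)) (hC4.trans (hC3.trans hC2)),
    k2.mono (hA4.trans hA3) (hB4.trans hB3) (hD4.trans hD3), k3.mono hA4 hC4 hD4, k4⟩

end Pool.Agent.Lib.MP_aa3337_co
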