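import Mathlib
import Pool.Agent.Lib.MP_aa3337_co.SameType

set_option autoImplicit false

namespace Pool.Agent.Lib.MP_aa3337_co

variable {V : Type*} {u v : V → ℝ}

theorem pos_cyc {X Y Z : Finset V} (h : ∀ x ∈ X, ∀ y ∈ Y, ∀ z ∈ Z, 0 < det u v x y z) :
    ∀ y ∈ Y, ∀ z ∈ Z, ∀ x ∈ X, 0 < det u v y z x := fun y hy z hz x hx => by
  rw [← det_cyc]; exact h x hx y hy z hz

theorem neg_cyc {X Y Z : Finset V} (h : ∀ x ∈ X, ∀ y ∈ Y, ∀ z ∈ Z, det u v x y z < 0) :
    ∀ y ∈ Y, ∀ z ∈ Z, ∀ x ∈ X, det u v y z x < 0 := fun y hy z hz x hx => by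
  rw [← det_cyc]; exact h x hx y hy z hz

theorem pos_sw {X Y Z : Finset V} (h : ∀ x ∈ X, ∀ y ∈ Y, ∀ z ∈ Z, 0 < det u v x y z) :
    ∀ x ∈ X, ∀ z ∈ Z, ∀ y ∈ Y, det u v x z y < 0 := fun x hx z hz y hy => by
  have := h x hx y hy z hz
  rw [det_swap23]; linarith

theorem neg_sw {X Y Z : Finset V} (h : ∀ x ∈ X, ∀ y ∈ Y, ∀ z ∈ Z, det u v x y z < 0) :
    ∀ x ∈ X, ∀ z ∈ Z, ∀ y ∈ Y, 0 < det u v x z y := fun x hx z hz y hy => by
  have := h x hx y hy z hz
  rw [det_swap23]; linarith

/-- Four same-type clusters of size `m` span a complete graph covered by `3m` plane graphs. -/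
theorem four_any (hgp : ∀ a b c : V, a ≠ b → b ≠ c → a ≠ c → det u v a b c ≠ 0) {m : ℕ}
    (hm : 0 < m) {A B C D : Finset V} (hA : A.card = m) (hB : B.card = m) (hC : C.card = m)
    (hD : D.card = m) (sAB : Sep u A B) (sAC : Sep u A C) (sAD : Sep u A D) (sBC : Sep u B C)
    (sBD : Sep u B D) (sCD : Sep u C D) (k1 : Const u v A B C) (k2 : Const u v A B D)
    (k3 : Const u v A C D) (k4 : Const u v B C D) :
    Cov u v (fun i j => (i ∈ A ∨ i ∈ B ∨ i ∈ C ∨ i ∈ D) ∧ (j ∈ A ∨ j ∈ B ∨ j ∈ C ∨ j ∈ D))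
      (3 * m) := by
  have sBA := sAB.symm
  have sCA := sAC.symm
  have sDA := sAD.symm
  have sCB := sBC.symm
  have sDB := sBD.symm
  have sDC := sCD.symm
  obtain ⟨a, ha⟩ : A.Nonempty := Finset.card_pos.1 (by omega)
  obtain ⟨b, hb⟩ : B.Nonempty := Finset.card_pos.1 (by omega)
  obtain ⟨c, hc⟩ : C.Nonempty := Finset.card_pos.1 (by omega)
  obtain ⟨d, hd⟩ : D.Nonempty := Finset.card_pos.1 (by omega)
  have hid : det u v a b c - det u v a b d + det u v a c d - det u v b c d = 0 := by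
    unfold det; ring
  rcases k1 with k1 | k1 <;> rcases k2 with k2 | k2 <;> rcases k3 with k3 | k3 <;>
    rcases k4 with k4 | k4
  · exact four_convex hgp hA hB hC hD sAB sAC sAD sBC sBD sCD k1 k2 k3 k4
  · exact (four_inner hA hB hD hC sAC k2 k1 (pos_sw k3) (neg_sw k4)).mono le_rfl
      (fun i j _ h => Or.inl (by tauto))
  · exact four_inner hA hB hC hD sAD k1 k2 k3 k4
  · exact (four_convex hgp hA hB hD hC sAB sAD sAC sBD sBC sDC k2 k1 (neg_sw k3)
      (neg_sw k4)).mono le_rfl (fun i j _ h => Or.inl (by tauto))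
  · exact (four_inner hB hC hD hA sBA k4 (pos_cyc k1) (neg_cyc k2) (pos_cyc k3)).mono le_rfl
      (fun i j _ h => Or.inl (by tauto))
  · have := k1 a ha b hb c hc
    have := k2 a ha b hb d hd
    have := k3 a ha c hc d hd
    have := k4 b hb c hc d hd
    exact absurd hid (by linarith)
  · exact (four_convex hgp hA hD hB hC sAD sAB sAC sDB sDC sBC (neg_sw k2) (neg_sw k3) k1
      (pos_cyc (pos_cyc k4))).mono le_rfl (fun i j _ h => Or.inl (by tauto))
  · exact (four_inner hA hD hC hB sAB (neg_sw k3) (neg_sw k2) (pos_sw k1)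
      (pos_cyc (neg_sw k4))).mono le_rfl (fun i j _ h => Or.inl (by tauto))
  · exact (four_inner hA hC hD hB sAB k3 (neg_sw k1) (pos_sw k2) (pos_cyc k4)).mono le_rfl
      (fun i j _ h => Or.inl (by tauto))
  · exact (four_convex hgp hA hC hB hD sAC sAB sAD sCB sCD sBD (neg_sw k1) k3 k2
      (neg_sw (neg_cyc k4))).mono le_rfl (fun i j _ h => Or.inl (by tauto))
  · have := k1 a ha b hb c hc
    have := k2 a ha b hb d hd
    have := k3 a ha c hc d hd
    have := k4 b hb c hc d hd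
    exact absurd hid (by linarith)
  · exact (four_inner hB hD hC hA sBA (neg_sw k4) (pos_cyc k2) (neg_cyc k1)
      (pos_cyc (neg_sw k3))).mono le_rfl (fun i j _ h => Or.inl (by tauto))
  · exact (four_convex hgp hA hC hD hB sAC sAD sAB sCD sCB sDB k3 (neg_sw k1) (neg_sw k2)
      (pos_cyc k4)).mono le_rfl (fun i j _ h => Or.inl (by tauto))
  · exact (four_inner hA hC hB hD sAD (neg_sw k1) k3 k2 (neg_sw (neg_cyc k4))).mono le_rfl
      (fun i j _ h => Or.inl (by tauto))
  · exact (four_inner hA hD hB hC sAC (neg_sw k2) (neg_sw k3) k1 (pos_cyc (pos_cyc k4))).mono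
      le_rfl (fun i j _ h => Or.inl (by tauto))
  · exact (four_convex hgp hA hD hC hB sAD sAC sAB sDC sDB sCB (neg_sw k3) (neg_sw k2)
      (neg_sw k1) (pos_cyc (neg_sw k4))).mono le_rfl (fun i j _ h => Or.inl (by tauto))

theorem cov_large [Fintype V] (hgp : ∀ a b c : V, a ≠ b → b ≠ c → a ≠ c → det u v a b c ≠ 0)
    (hu : Function.Injective u) {m : ℕ} (hm : 0 < m) (hn : 1024 * m ≤ Fintype.card V) :
    Cov u v (fun _ _ => True) (Fintype.card V - m) := by
  classical
  obtain ⟨A, B, C, D, hA, hB, hC, hD, lAB, lBC, lCD, k1, k2, k3, k4⟩ :=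
    four_clusters hgp hu Finset.univ hm (by simpa using hn)
  obtain ⟨b, hb⟩ : B.Nonempty := Finset.card_pos.1 (by omega)
  obtain ⟨c, hc⟩ : C.Nonempty := Finset.card_pos.1 (by omega)
  have sAB : Sep u A B := Or.inl lAB
  have sBC : Sep u B C := Or.inl lBC
  have sCD : Sep u C D := Or.inl lCD
  have sAC : Sep u A C := Or.inl fun x hx y hy => (lAB x hx b hb).trans (lBC b hb y hy)
  have sBD : Sep u B D := Or.inl fun x hx y hy => (lBC x hx c hc).trans (lCD c hc y hy)
  have sAD : Sep u A D := Or.inl fun x hx y hy =>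
    ((lAB x hx b hb).trans (lBC b hb c hc)).trans (lCD c hc y hy)
  have h1 := four_any hgp hm hA hB hC hD sAB sAC sAD sBC sBD sCD k1 k2 k3 k4
  have dis : ∀ {X Y : Finset V}, Sep u X Y → Disjoint X Y := fun h =>
    Finset.disjoint_left.2 fun x hx hy => h.ne hx hy rfl
  have hcard : (A ∪ B ∪ C ∪ D).card = 4 * m := by
    rw [Finset.card_union_of_disjoint, Finset.card_union_of_disjoint,
      Finset.card_union_of_disjoint (dis sAB)]
    · omega
    · exact Finset.disjoint_union_left.2 ⟨dis sAC, dis sBC⟩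
    · exact Finset.disjoint_union_left.2
        ⟨Finset.disjoint_union_left.2 ⟨dis sAD, dis sBD⟩, dis sCD⟩
  have h2 := Cov.star (u := u) (v := v) (A ∪ B ∪ C ∪ D)ᶜ
  rw [Finset.card_compl, hcard] at h2
  refine (h1.union h2).mono (by omega) ?_
  intro i j _ _
  simp only [Finset.mem_compl, Finset.mem_union]
  tauto

theorem cov_small [Fintype V] : Cov u v (fun _ _ => True) (Fintype.card V - 1) := by
  classical
  rcases isEmpty_or_nonempty V with h | ⟨⟨a⟩⟩
  · exact Cov.empty.mono (by omega) (fun i => isEmptyElim i)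
  · have h2 := Cov.star (u := u) (v := v) (Finset.univ.erase a)
    rw [Finset.card_erase_of_mem (Finset.mem_univ a), Finset.card_univ] at h2
    refine h2.mono le_rfl ?_
    intro i j hij _
    by_cases hi : i = a
    · subst hi
      exact Or.inr (Finset.mem_erase.2 ⟨hij.symm, Finset.mem_univ _⟩)
    · exact Or.inl (Finset.mem_erase.2 ⟨hi, Finset.mem_univ _⟩)

theorem cov_all [Fintype V] (hgp : ∀ a b c : V, a ≠ b → b ≠ c → a ≠ c → det u v a b c ≠ 0)
    (hu : Function.Injective u) :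
    ∃ k : ℕ, 2048 * k ≤ 2047 * Fintype.card V ∧ Cov u v (fun _ _ => True) k := by
  by_cases hn : 1024 ≤ Fintype.card V
  · refine ⟨_, ?_, cov_large hgp hu (m := Fintype.card V / 1024) (by omega) (by omega)⟩
    omega
  · exact ⟨_, by omega, cov_small⟩

theorem Cov.colouring {k : ℕ} (h : Cov u v (fun _ _ => True) k) :
    ∃ c : V → V → ℕ, (∀ i j, c i j = c j i) ∧ (∀ i j, i ≠ j → c i j < k) ∧
      ∀ i j a b, i ≠ j → i ≠ a → i ≠ b → j ≠ a → j ≠ b → a ≠ b → Cross u v i j a b →
        c i j ≠ c a b := by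
  obtain ⟨F, hF, hc⟩ := h
  have hmem : ∀ i j, i ≠ j →
      sInf {t | t < k ∧ (F t i j ∨ F t j i)} ∈ {t | t < k ∧ (F t i j ∨ F t j i)} :=
    fun i j hij => Nat.sInf_mem (hc i j hij trivial)
  refine ⟨fun i j => sInf {t | t < k ∧ (F t i j ∨ F t j i)}, fun i j => ?_,
    fun i j hij => (hmem i j hij).1, ?_⟩
  · simp only [or_comm]
  · intro i j a b hij hia hib hja hjb hab hx heq
    have h1 := (hmem i j hij).2
    have h2 := (hmem a b hab).2
    simp only at heq
    rw [← heq] at h2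
    exact (hF _).sym_both i j a b h1 h2 hij hia hib hja hjb hab hx

theorem exists_shear [Fintype V] (p : V → ℝ × ℝ) (hp : Function.Injective p) :
    ∃ t : ℝ, Function.Injective fun i => (p i).1 + t * (p i).2 := by
  classical
  obtain ⟨t, ht⟩ := Infinite.exists_notMem_finset
    ((Finset.univ : Finset (V × V)).image fun q =>
      ((p q.1).1 - (p q.2).1) / ((p q.2).2 - (p q.1).2))
  refine ⟨t, fun i j hij => ?_⟩
  simp only at hij
  by_cases h : (p j).2 - (p i).2 = 0
  · apply hp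
    have h2 : (p i).2 = (p j).2 := by linarith
    rw [h2] at hij
    exact Prod.ext (by linarith) h2
  · exfalso
    apply ht
    refine Finset.mem_image.2 ⟨(i, j), Finset.mem_univ _, ?_⟩
    simp only
    rw [div_eq_iff h]
    linarith

theorem collinear_of_det {a b c : ℝ × ℝ} (hab : a ≠ b)
    (h : (b.1 - a.1) * (c.2 - a.2) - (b.2 - a.2) * (c.1 - a.1) = 0) :
    Collinear ℝ ({a, b, c} : Set (ℝ × ℝ)) := by
  rw [collinear_iff_of_mem (p₀ := a) (by simp)]
  refine ⟨b - a, ?_⟩
  intro q hq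
  simp only [Set.mem_insert_iff, Set.mem_singleton_iff] at hq
  rcases hq with rfl | rfl | rfl
  · exact ⟨0, by simp⟩
  · exact ⟨1, by simp⟩
  · by_cases h1 : b.1 - a.1 = 0
    · have h2 : b.2 - a.2 ≠ 0 := by
        intro h2
        exact hab (Prod.ext (by linarith) (by linarith))
      refine ⟨(q.2 - a.2) / (b.2 - a.2), Prod.ext ?_ ?_⟩
      · simp only [vadd_eq_add, Prod.fst_add, Prod.smul_fst, Prod.fst_sub, smul_eq_mul]
        field_simp
        linarith
      · simp only [vadd_eq_add, Prod.snd_add, Prod.smul_snd, Prod.snd_sub, smul_eq_mul]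
        field_simp
        ring
    · refine ⟨(q.1 - a.1) / (b.1 - a.1), Prod.ext ?_ ?_⟩
      · simp only [vadd_eq_add, Prod.fst_add, Prod.smul_fst, Prod.fst_sub, smul_eq_mul]
        field_simp
        ring
      · simp only [vadd_eq_add, Prod.snd_add, Prod.smul_snd, Prod.snd_sub, smul_eq_mul]
        field_simp
        linarith

end Pool.Agent.Lib.MP_aa3337_co
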